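import Pool.Agent.R926.KI.Good

set_option autoImplicit false

/-!
# Coincidences of products of tuples all of whose pairs have a small ratio
-/

namespace Pool.Agent.R926.KI

open Finset Pool.Agent.Y385.SPI

theorem freq_prod (n : ℕ) {k : ℕ} (x : Fin k → ℕ) (hx : ∀ i, x i ≠ 0) :
    freq n (∏ i, x i) = ∑ i, freq n (x i) := by
  induction k with
  | zero =>
    simp only [Finset.univ_eq_empty, Finset.prod_empty, Finset.sum_empty]
    funext i
    unfold freq
    simp
  | succ k ih =>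
    rw [Fin.prod_univ_succ, Fin.sum_univ_succ, freq_mul n _ _ (hx 0)
      (Finset.prod_ne_zero_iff.2 fun i _ => hx _), ih (fun i => x i.succ) fun i => hx _]

theorem chi_sum (D : ℕ) {n k : ℕ} (v : Fin k → Fin n → ℤ) (θ : Fin n → Fin (D + 1)) :
    chi (rt D) (∑ i, v i) θ = ∏ i, chi (rt D) (v i) θ := by
  induction k with
  | zero => simp [chi]
  | succ k ih =>
    rw [Fin.sum_univ_succ, Fin.prod_univ_succ, chi_add, ih]

theorem core_all (k : ℕ) (hk : 1 ≤ k) (C : ℝ) (hC : 2 ≤ C)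
    (hCm : 4 * (k * (2 * k - 1) * 2 ^ (k - 1)) ≤ C ^ 2) (H : ℕ) (hH : 1 ≤ H)
    (r : ℕ × ℕ → ℝ) (hr : ∀ p, 0 ≤ r p) (Wm : ℝ)
    (hW : ∀ n : ℕ, ∀ p ∈ PH H, Wt C (fr n p) ≤ Wm) :
    (∑ τ ∈ (Fintype.piFinset fun _ : Fin k => PH H).filter
      (fun τ => ∏ i, (τ i).2 = ∏ i, (τ i).1), ∏ i, r (τ i)) ^ 2 ≤
      (Wm ^ 2 * ∑ p ∈ PH H, r p ^ 2) ^ k := by
  classical
  have hP : ∀ p ∈ PH H, (1 ≤ p.1 ∧ p.1 ≤ H) ∧ (1 ≤ p.2 ∧ p.2 ≤ H) ∧ Nat.Coprime p.1 p.2 := by
    intro p hp
    unfold PH at hp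
    rw [Finset.mem_filter, Finset.mem_product, Finset.mem_Icc, Finset.mem_Icc] at hp
    exact ⟨hp.1.1, hp.1.2, hp.2⟩
  set n : ℕ := H ^ k + H * H + 1 with hn
  have hHn : H < n := by
    have : H ≤ H * H := Nat.le_mul_of_pos_left _ hH
    omega
  have hHHn : ∀ a b : ℕ, a ≤ H → b ≤ H → a * b < n := by
    intro a b ha hb
    have : a * b ≤ H * H := Nat.mul_le_mul ha hb
    omega
  set D : ℕ := (k + 1) * n with hD
  set N : ℝ := ((D + 1 : ℕ) : ℝ) with hN
  have hNpos : 0 < N := by rw [hN]; positivity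
  set S : ℝ := ∑ p ∈ PH H, r p ^ 2 with hS
  have hS0 : 0 ≤ S := Finset.sum_nonneg fun p _ => by positivity
  set X : ℝ := ∑ τ ∈ (Fintype.piFinset fun _ : Fin k => PH H).filter
      (fun τ => ∏ i, (τ i).2 = ∏ i, (τ i).1), ∏ i, r (τ i) with hX
  have hX0 : 0 ≤ X := Finset.sum_nonneg fun τ _ => Finset.prod_nonneg fun i _ => hr _
  set g : (Fin n → Fin (D + 1)) → ℂ := fun θ => ∑ p ∈ PH H, (r p : ℂ) * chi (rt D) (fr n p) θ
    with hg
  have hfrb : ∀ p ∈ PH H, ∀ i, |fr n p i| ≤ n := by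
    intro p hp i
    have hp' := hP p hp
    have h1 := freq_bound n p.1 (by omega) (by omega) i
    have h2 := freq_bound n p.2 (by omega) (by omega) i
    unfold fr
    rw [Pi.sub_apply, abs_le]
    constructor <;> omega
  -- the main identity
  have hmain : ∑ θ, g θ ^ k = ((D + 1 : ℕ) : ℂ) ^ n * (X : ℂ) := by
    have h1 : ∀ θ, g θ ^ k = ∑ τ ∈ Fintype.piFinset fun _ : Fin k => PH H,
        (∏ i, (r (τ i) : ℂ)) * chi (rt D) (∑ i, fr n (τ i)) θ := by
      intro θ
      have e1 : g θ ^ k = ∏ _i : Fin k, ∑ p ∈ PH H, (r p : ℂ) * chi (rt D) (fr n p) θ := by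
        rw [Finset.prod_const, Finset.card_univ, Fintype.card_fin]
      rw [e1, Finset.prod_univ_sum]
      refine Finset.sum_congr rfl fun τ _ => ?_
      rw [Finset.prod_mul_distrib, chi_sum]
    rw [Finset.sum_congr rfl fun θ _ => h1 θ, Finset.sum_comm]
    have h2 : ∀ τ ∈ Fintype.piFinset fun _ : Fin k => PH H,
        ∑ θ, (∏ i, (r (τ i) : ℂ)) * chi (rt D) (∑ i, fr n (τ i)) θ =
        if ∏ i, (τ i).2 = ∏ i, (τ i).1 then
          ((D + 1 : ℕ) : ℂ) ^ n * ∏ i, (r (τ i) : ℂ) else 0 := by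
      intro τ hτ
      rw [Fintype.mem_piFinset] at hτ
      rw [← Finset.mul_sum, orth]
      · have hiff : (∑ i, fr n (τ i)) = 0 ↔ ∏ i, (τ i).2 = ∏ i, (τ i).1 := by
          have hne2 : ∀ i, (τ i).2 ≠ 0 := fun i => by have := hP _ (hτ i); omega
          have hne1 : ∀ i, (τ i).1 ≠ 0 := fun i => by have := hP _ (hτ i); omega
          have e1 : (∑ i, fr n (τ i)) = freq n (∏ i, (τ i).2) - freq n (∏ i, (τ i).1) := by
            rw [freq_prod n _ hne2, freq_prod n _ hne1, ← Finset.sum_sub_distrib]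
            rfl
          have hb : ∀ f : Fin k → ℕ, (∀ i, f i ≤ H) → ∏ i, f i < n := by
            intro f hf
            have : ∏ i, f i ≤ H ^ k := by
              calc ∏ i, f i ≤ ∏ _i : Fin k, H := Finset.prod_le_prod' fun i _ => hf i
                _ = H ^ k := by simp
            omega
          rw [e1, sub_eq_zero]
          constructor
          · intro h
            exact freq_inj n _ _ (Finset.prod_ne_zero_iff.2 fun i _ => hne2 i)
              (Finset.prod_ne_zero_iff.2 fun i _ => hne1 i)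
              (hb _ fun i => (hP _ (hτ i)).2.1.2) (hb _ fun i => (hP _ (hτ i)).1.2) h
          · intro h; rw [h]
        by_cases hc : ∏ i, (τ i).2 = ∏ i, (τ i).1
        · rw [if_pos (hiff.2 hc), if_pos hc, mul_comm]
        · rw [if_neg fun h => hc (hiff.1 h), if_neg hc, mul_zero]
      · intro i
        have h3 : |(∑ j, fr n (τ j)) i| ≤ ∑ _j : Fin k, (n : ℤ) := by
          rw [Finset.sum_apply]
          exact (Finset.abs_sum_le_sum_abs _ _).trans
            (Finset.sum_le_sum fun j _ => hfrb _ (hτ j) i)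
        refine h3.trans ?_
        rw [Finset.sum_const, Finset.card_univ, Fintype.card_fin, nsmul_eq_mul, hD]
        push_cast
        nlinarith [Nat.zero_le n]
    rw [Finset.sum_congr rfl h2, ← Finset.sum_filter, ← Finset.mul_sum, hX]
    push_cast
    rfl
  -- high moment of g
  have hinj : Set.InjOn (fr n) (PH H : Set (ℕ × ℕ)) := by
    intro p hp q hq h
    have hp' := hP p hp
    have hq' := hP q hq
    have h1 : freq n (p.1 * q.2) = freq n (q.1 * p.2) := by
      rw [freq_mul n _ _ (by omega) (by omega), freq_mul n _ _ (by omega) (by omega)]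
      have h2 : freq n p.2 - freq n p.1 = freq n q.2 - freq n q.1 := h
      rw [sub_eq_sub_iff_add_eq_add] at h2
      rw [add_comm, add_comm (freq n q.1), h2]
    have h2 := freq_inj n _ _ (mul_ne_zero (by omega) (by omega)) (mul_ne_zero (by omega) (by omega))
      (hHHn _ _ hp'.1.2 hq'.2.1.2) (hHHn _ _ hq'.1.2 hp'.2.1.2) h1
    have d1 : p.1 ∣ q.1 := hp'.2.2.dvd_of_dvd_mul_right ⟨q.2, h2.symm⟩
    have d2 : q.1 ∣ p.1 := hq'.2.2.dvd_of_dvd_mul_right ⟨p.2, h2⟩
    have e1 : p.1 = q.1 := Nat.dvd_antisymm d1 d2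
    have e2 : p.2 = q.2 := by
      rw [e1] at h2
      exact (Nat.eq_of_mul_eq_mul_left (by omega) h2).symm
    exact Prod.ext e1 e2
  have hgm : ∑ θ, (‖g θ‖ ^ 2) ^ k ≤ N ^ n * (Wm ^ 2 * S) ^ k := by
    set a : (Fin n → ℤ) → ℂ := fun v => ∑ p ∈ (PH H).filter (fun p => fr n p = v), (r p : ℂ) with ha
    have ha1 : ∀ p ∈ PH H, a (fr n p) = (r p : ℂ) := by
      intro p hp
      rw [ha]
      have : (PH H).filter (fun q => fr n q = fr n p) = {p} := by
        ext q
        rw [Finset.mem_filter, Finset.mem_singleton]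
        exact ⟨fun h => hinj h.1 hp h.2, fun h => by rw [h]; exact ⟨hp, rfl⟩⟩
      simp only [this, Finset.sum_singleton]
    have ht := tens (rt D) D (rt_norm D) (rt_sum D) k hk C hC hCm n ((PH H).image (fr n)) a (by
      intro v hv i
      obtain ⟨p, hp, rfl⟩ := Finset.mem_image.1 hv
      have := hfrb p hp i
      refine this.trans ?_
      rw [hD]; push_cast
      nlinarith [Nat.zero_le n, Nat.zero_le k])
    rw [Fintype.card_fin] at ht
    have h1 : ∀ θ, ∑ v ∈ (PH H).image (fr n), a v * chi (rt D) v θ = g θ := by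
      intro θ
      rw [Finset.sum_image hinj, hg]
      exact Finset.sum_congr rfl fun p hp => by rw [ha1 p hp]
    have h2 : ∑ v ∈ (PH H).image (fr n), Wt C v ^ 2 * ‖a v‖ ^ 2 ≤ Wm ^ 2 * S := by
      rw [Finset.sum_image hinj, hS, Finset.mul_sum]
      refine Finset.sum_le_sum fun p hp => ?_
      rw [ha1 p hp, Complex.norm_real, Real.norm_eq_abs, sq_abs]
      refine mul_le_mul_of_nonneg_right ?_ (by positivity)
      refine pow_le_pow_left₀ ?_ (hW n p hp) 2
      unfold Wt wt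
      refine Finset.prod_nonneg fun i _ => ?_
      split_ifs
      · norm_num
      · positivity
    rw [Finset.sum_congr rfl fun θ _ => by rw [h1 θ]] at ht
    refine ht.trans ?_
    rw [hN]
    refine mul_le_mul_of_nonneg_left ?_ (by positivity)
    refine pow_le_pow_left₀ (Finset.sum_nonneg fun v _ => by positivity) h2 k
  -- conclusion
  have hup : N ^ n * X ≤ ∑ θ, ‖g θ‖ ^ k := by
    have h1 : ‖((D + 1 : ℕ) : ℂ) ^ n * (X : ℂ)‖ = N ^ n * X := by
      rw [norm_mul, norm_pow, Complex.norm_natCast, Complex.norm_real, Real.norm_eq_abs,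
        abs_of_nonneg hX0]
    rw [← h1, ← hmain]
    refine (norm_sum_le _ _).trans (le_of_eq ?_)
    exact Finset.sum_congr rfl fun θ _ => norm_pow _ _
  have hcs : (∑ θ, ‖g θ‖ ^ k) ^ 2 ≤ N ^ n * ∑ θ, (‖g θ‖ ^ 2) ^ k := by
    have h1 := sq_sum_le_card_mul_sum_sq (s := (Finset.univ : Finset (Fin n → Fin (D + 1))))
      (f := fun θ => ‖g θ‖ ^ k)
    rw [Finset.card_univ, Fintype.card_fun, Fintype.card_fin, Fintype.card_fin] at h1
    refine h1.trans (le_of_eq ?_)
    rw [hN]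
    push_cast
    congr 1
    exact Finset.sum_congr rfl fun θ _ => by rw [← pow_mul, ← pow_mul, mul_comm]
  have h3 : (N ^ n * X) ^ 2 ≤ (N ^ n) ^ 2 * (Wm ^ 2 * S) ^ k := by
    calc (N ^ n * X) ^ 2 ≤ (∑ θ, ‖g θ‖ ^ k) ^ 2 := pow_le_pow_left₀ (by positivity) hup 2
      _ ≤ N ^ n * ∑ θ, (‖g θ‖ ^ 2) ^ k := hcs
      _ ≤ N ^ n * (N ^ n * (Wm ^ 2 * S) ^ k) := mul_le_mul_of_nonneg_left hgm (by positivity)
      _ = _ := by ring
  rw [mul_pow] at h3
  exact le_of_mul_le_mul_left h3 (by positivity)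

open Classical in
/-- the solutions of `x_1 ⋯ x_k = y_1 ⋯ y_k` all of whose ratios `x_i / y_i` have small height -/
noncomputable def AC (A : Finset ℕ) (k H : ℕ) : Finset ((Fin k → ℕ) × (Fin k → ℕ)) :=
  ((Fintype.piFinset fun _ : Fin k => A) ×ˢ (Fintype.piFinset fun _ : Fin k => A)).filter fun q =>
    pr q.1 = pr q.2 ∧ ∀ i, Close H (q.1 i) (q.2 i)

theorem AC_le (A : Finset ℕ) (hA : ∀ x ∈ A, x ≠ 0) (k H : ℕ) :
    ((AC A k H).card : ℝ) ≤ ∑ τ ∈ (Fintype.piFinset fun _ : Fin k => PH H).filter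
      (fun τ => ∏ i, (τ i).2 = ∏ i, (τ i).1), ∏ i, (rep A (τ i) : ℝ) := by
  classical
  set R := (Fintype.piFinset fun _ : Fin k => PH H).filter
      (fun τ => ∏ i, (τ i).2 = ∏ i, (τ i).1) with hR
  set T := fun τ : Fin k → ℕ × ℕ => Fintype.piFinset fun i =>
    ((A ×ˢ A).filter fun q => (τ i).2 * q.1 = (τ i).1 * q.2) with hT
  have hcard : ∀ τ, (T τ).card = ∏ i, rep A (τ i) := by
    intro τ
    rw [hT, Fintype.card_piFinset]
    rfl
  have hle : (AC A k H).card ≤ (R.biUnion T).card := by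
    refine Finset.card_le_card_of_injOn (fun q i => (q.1 i, q.2 i)) ?_ ?_
    · intro q hq
      unfold AC at hq
      rw [Finset.mem_coe, Finset.mem_filter, Finset.mem_product, Fintype.mem_piFinset,
        Fintype.mem_piFinset] at hq
      obtain ⟨⟨hx, hy⟩, hpr, hcl⟩ := hq
      have hex : ∀ i, ∃ b c : ℕ, q.1 i = Nat.gcd (q.1 i) (q.2 i) * b ∧
          q.2 i = Nat.gcd (q.1 i) (q.2 i) * c := by
        intro i
        obtain ⟨b, hb⟩ := Nat.gcd_dvd_left (q.1 i) (q.2 i)
        obtain ⟨c, hc⟩ := Nat.gcd_dvd_right (q.1 i) (q.2 i)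
        exact ⟨b, c, hb, hc⟩
      choose b c hb hc using hex
      have hg0 : ∀ i, 0 < Nat.gcd (q.1 i) (q.2 i) := fun i =>
        Nat.gcd_pos_of_pos_left _ (Nat.pos_of_ne_zero (hA _ (hx i)))
      rw [Finset.mem_coe, Finset.mem_biUnion]
      refine ⟨fun i => (b i, c i), ?_, ?_⟩
      · rw [hR, Finset.mem_filter, Fintype.mem_piFinset]
        constructor
        · intro i
          have hcop : Nat.Coprime (b i) (c i) := by
            have := Nat.coprime_div_gcd_div_gcd (m := q.1 i) (n := q.2 i) (hg0 i)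
            have e1 : q.1 i / Nat.gcd (q.1 i) (q.2 i) = b i := by
              nth_rewrite 1 [hb i]; exact Nat.mul_div_cancel_left _ (hg0 i)
            have e2 : q.2 i / Nat.gcd (q.1 i) (q.2 i) = c i := by
              nth_rewrite 1 [hc i]; exact Nat.mul_div_cancel_left _ (hg0 i)
            rwa [e1, e2] at this
          have hb0 : 1 ≤ b i := by
            rcases Nat.eq_zero_or_pos (b i) with h | h
            · have := hb i; rw [h, mul_zero] at this; exact absurd this (hA _ (hx i))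
            · exact h
          have hc0 : 1 ≤ c i := by
            rcases Nat.eq_zero_or_pos (c i) with h | h
            · have := hc i; rw [h, mul_zero] at this; exact absurd this (hA _ (hy i))
            · exact h
          have hbH : b i ≤ H := by
            have h1 := (hcl i).1
            have h2 : b i * Nat.gcd (q.1 i) (q.2 i) ≤ H * Nat.gcd (q.1 i) (q.2 i) := by
              rw [mul_comm (b i), ← hb i]; exact h1
            exact Nat.le_of_mul_le_mul_right h2 (hg0 i)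
          have hcH : c i ≤ H := by
            have h1 := (hcl i).2
            have h2 : c i * Nat.gcd (q.1 i) (q.2 i) ≤ H * Nat.gcd (q.1 i) (q.2 i) := by
              rw [mul_comm (c i), ← hc i]; exact h1
            exact Nat.le_of_mul_le_mul_right h2 (hg0 i)
          unfold PH
          rw [Finset.mem_filter, Finset.mem_product, Finset.mem_Icc, Finset.mem_Icc]
          exact ⟨⟨⟨hb0, hbH⟩, ⟨hc0, hcH⟩⟩, hcop⟩
        · unfold pr at hpr
          have e1 : ∏ i, q.1 i = (∏ i, Nat.gcd (q.1 i) (q.2 i)) * ∏ i, b i := by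
            rw [← Finset.prod_mul_distrib]
            exact Finset.prod_congr rfl fun i _ => hb i
          have e2 : ∏ i, q.2 i = (∏ i, Nat.gcd (q.1 i) (q.2 i)) * ∏ i, c i := by
            rw [← Finset.prod_mul_distrib]
            exact Finset.prod_congr rfl fun i _ => hc i
          rw [e1, e2] at hpr
          exact (Nat.eq_of_mul_eq_mul_left (Finset.prod_pos fun i _ => hg0 i) hpr).symm
      · rw [hT]
        simp only [Fintype.mem_piFinset, Finset.mem_filter, Finset.mem_product]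
        intro i
        refine ⟨⟨hx i, hy i⟩, ?_⟩
        calc c i * q.1 i = c i * (Nat.gcd (q.1 i) (q.2 i) * b i) := by rw [← hb i]
          _ = b i * (Nat.gcd (q.1 i) (q.2 i) * c i) := by ring
          _ = b i * q.2 i := by rw [← hc i]
    · intro q _ q' _ h
      refine Prod.ext ?_ ?_
      · funext i; exact (Prod.ext_iff.1 (congrFun h i)).1
      · funext i; exact (Prod.ext_iff.1 (congrFun h i)).2
  have h2 : (AC A k H).card ≤ ∑ τ ∈ R, ∏ i, rep A (τ i) := by
    refine hle.trans (Finset.card_biUnion_le.trans (le_of_eq ?_))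
    exact Finset.sum_congr rfl fun τ _ => hcard τ
  exact_mod_cast h2

theorem all_close (k : ℕ) (hk : 1 ≤ k) (ε : ℝ) (hε : 0 < ε) : ∃ K : ℝ, 0 < K ∧
    ∀ H : ℕ, 1 ≤ H → ∀ A : Finset ℕ, (∀ x ∈ A, x ≠ 0) →
    ((AC A k H).card : ℝ) ≤ K * ((H : ℝ) * A.card) ^ ε * (A.card : ℝ) ^ k := by
  classical
  set s : ℕ := 2 * k + 2 with hs
  set C : ℝ := (2 : ℝ) ^ s with hC
  have hC2 : 2 ≤ C := by
    rw [hC]
    calc (2 : ℝ) = 2 ^ 1 := by norm_num
      _ ≤ 2 ^ s := pow_le_pow_right₀ (by norm_num) (by omega)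
  have hCm : 4 * (k * (2 * k - 1) * 2 ^ (k - 1)) ≤ C ^ 2 := by
    have h1 : (k : ℝ) ≤ 2 ^ k := by exact_mod_cast (Nat.lt_two_pow_self (n := k)).le
    have hk1' : (1 : ℝ) ≤ k := by exact_mod_cast hk
    have h2 : (k : ℝ) * (2 * k - 1) ≤ 2 * (2 ^ k * 2 ^ k) := by nlinarith
    have h3 : (2 : ℝ) ^ (k - 1) ≤ 2 ^ k := pow_le_pow_right₀ (by norm_num) (by omega)
    have h4 : (k : ℝ) * (2 * k - 1) * 2 ^ (k - 1) ≤ 2 * (2 ^ k * 2 ^ k) * 2 ^ k :=
      mul_le_mul h2 h3 (by positivity) (by positivity)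
    have h5 : C ^ 2 = 16 * (2 ^ k * 2 ^ k) * (2 ^ k * 2 ^ k) := by
      rw [hC, hs, pow_add, mul_pow, ← pow_mul, ← pow_mul]
      have : (2 : ℝ) ^ (2 * k * 2) = (2 ^ k * 2 ^ k) * (2 ^ k * 2 ^ k) := by
        rw [← pow_add, ← pow_add]; congr 1; ring
      rw [this]; norm_num; ring
    rw [h5]
    have h6 : (1 : ℝ) ≤ 2 ^ k := one_le_pow₀ (by norm_num)
    have h7 : 0 < (2 : ℝ) ^ k * 2 ^ k * 2 ^ k := by positivity
    nlinarith
  have hk1 : (0 : ℝ) < k := by exact_mod_cast hk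
  set η : ℝ := ε / (4 * (s + 1) * k) with hη
  have hη0 : 0 < η := by positivity
  obtain ⟨K1, hK1, hdiv⟩ := Pool.Agent.H510R2.divisor_bound η hη0
  obtain ⟨K0, hK0, hrep⟩ := rep_bound (ε / k) (by positivity)
  set K0' : ℝ := max K0 1 with hK0'
  have hK01 : 1 ≤ K0' := le_max_right _ _
  refine ⟨K1 ^ (2 * (s + 1) * k) * K0' ^ k, by positivity, ?_⟩
  intro H hH A hA
  rcases A.eq_empty_or_nonempty with rfl | hAne
  · have h0 : (AC ∅ k H) = ∅ := by
      unfold AC
      rw [Finset.filter_eq_empty_iff]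
      intro q hq
      rw [Finset.mem_product, Fintype.mem_piFinset] at hq
      exact absurd (hq.1 ⟨0, hk⟩) (Finset.notMem_empty _)
    rw [h0]
    have e0 : (0 : ℝ) ≤ K1 ^ (2 * (s + 1) * k) * K0' ^ k := by positivity
    rw [Finset.card_empty, Nat.cast_zero]
    exact mul_nonneg (mul_nonneg e0 (Real.rpow_nonneg (mul_nonneg (Nat.cast_nonneg _)
      (Nat.cast_nonneg _)) _)) (pow_nonneg (Nat.cast_nonneg _) _)
  have hH1 : (1 : ℝ) ≤ H := by exact_mod_cast hH
  have hA1 : (1 : ℝ) ≤ A.card := by exact_mod_cast hAne.card_pos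
  set Wm : ℝ := (K1 * (H : ℝ) ^ η * (K1 * (H : ℝ) ^ η)) ^ (s + 1) with hWm
  have hW : ∀ n : ℕ, ∀ p ∈ PH H, Wt C (fr n p) ≤ Wm := by
    intro n p hp
    unfold PH at hp
    rw [Finset.mem_filter, Finset.mem_product, Finset.mem_Icc, Finset.mem_Icc] at hp
    refine (Wt_le s n p (by omega) (by omega) hp.2).trans ?_
    refine pow_le_pow_left₀ (by positivity) ?_ _
    have hd : ∀ q : ℕ, 1 ≤ q → q ≤ H → (q.divisors.card : ℝ) ≤ K1 * (H : ℝ) ^ η := by
      intro q h1 h2
      refine (hdiv q h1).trans ?_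
      exact mul_le_mul_of_nonneg_left (Real.rpow_le_rpow (by positivity)
        (by exact_mod_cast h2) hη0.le) hK1.le
    exact mul_le_mul (hd _ hp.1.1.1 hp.1.1.2) (hd _ hp.1.2.1 hp.1.2.2) (by positivity)
      (by positivity)
  have hcore := core_all k hk C hC2 hCm H hH (fun p => (rep A p : ℝ)) (fun p => by positivity) Wm hW
  have hle := AC_le A hA k H
  have hS := hrep H hH A hA hAne
  set X : ℝ := ∑ τ ∈ (Fintype.piFinset fun _ : Fin k => PH H).filter
      (fun τ => ∏ i, (τ i).2 = ∏ i, (τ i).1), ∏ i, (rep A (τ i) : ℝ) with hX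
  set S : ℝ := ∑ p ∈ PH H, (rep A p : ℝ) ^ 2 with hSdef
  set a : ℝ := (A.card : ℝ) with ha
  refine hle.trans ?_
  have hX0 : 0 ≤ X := Finset.sum_nonneg fun τ _ => Finset.prod_nonneg fun i _ => by positivity
  have hS0 : 0 ≤ S := Finset.sum_nonneg fun p _ => by positivity
  have hHa0 : 0 < (H : ℝ) * a := by nlinarith
  have hWm2 : (Wm ^ 2) ^ k ≤ (K1 ^ (2 * (s + 1) * k)) ^ 2 * ((H : ℝ) * a) ^ ε := by
    have e2 : (Wm ^ 2) ^ k = (K1 ^ (2 * (s + 1) * k)) ^ 2 * ((H : ℝ) ^ η) ^ (4 * (s + 1) * k) := by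
      rw [hWm]
      ring
    rw [e2]
    refine mul_le_mul_of_nonneg_left ?_ (by positivity)
    rw [← Real.rpow_natCast ((H : ℝ) ^ η), ← Real.rpow_mul (by positivity)]
    have e3 : η * ((4 * (s + 1) * k : ℕ) : ℝ) = ε := by
      rw [hη]
      push_cast
      field_simp
    rw [e3]
    refine Real.rpow_le_rpow (by positivity) ?_ hε.le
    nlinarith
  have hSk : S ^ k ≤ (K0' ^ k) ^ 2 * ((H : ℝ) * a) ^ ε * (a ^ k) ^ 2 := by
    calc S ^ k ≤ (K0' * ((H : ℝ) * a) ^ (ε / k) * a ^ 2) ^ k := by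
          refine pow_le_pow_left₀ hS0 (hS.trans ?_) k
          refine mul_le_mul_of_nonneg_right ?_ (by positivity)
          exact mul_le_mul_of_nonneg_right (le_max_left _ _) (by positivity)
      _ = K0' ^ k * (((H : ℝ) * a) ^ (ε / k)) ^ k * (a ^ k) ^ 2 := by
          rw [mul_pow, mul_pow, ← pow_mul, ← pow_mul, mul_comm 2 k]
      _ = K0' ^ k * ((H : ℝ) * a) ^ ε * (a ^ k) ^ 2 := by
          congr 2
          rw [← Real.rpow_natCast (((H : ℝ) * a) ^ (ε / k)), ← Real.rpow_mul hHa0.le]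
          congr 1
          field_simp
      _ ≤ _ := by
          refine mul_le_mul_of_nonneg_right ?_ (by positivity)
          refine mul_le_mul_of_nonneg_right ?_ (by positivity)
          have : 1 ≤ K0' ^ k := one_le_pow₀ hK01
          nlinarith
  have hfin : X ^ 2 ≤ (K1 ^ (2 * (s + 1) * k) * K0' ^ k * ((H : ℝ) * a) ^ ε * a ^ k) ^ 2 := by
    calc X ^ 2 ≤ (Wm ^ 2 * S) ^ k := hcore
      _ = (Wm ^ 2) ^ k * S ^ k := mul_pow _ _ _
      _ ≤ ((K1 ^ (2 * (s + 1) * k)) ^ 2 * ((H : ℝ) * a) ^ ε) *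
          ((K0' ^ k) ^ 2 * ((H : ℝ) * a) ^ ε * (a ^ k) ^ 2) :=
          mul_le_mul hWm2 hSk (by positivity) (by positivity)
      _ = _ := by ring
  exact (pow_le_pow_iff_left₀ hX0 (by positivity) (by norm_num)).1 hfin

end Pool.Agent.R926.KI
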