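import Pool.Agent.R926.KI.Gen
import Pool.Agent.R849.RF.Base

set_option autoImplicit false

/-!
# Products of an arbitrary set and a set covered by few short progressions
-/

namespace Pool.Agent.R926.KI

open Finset

theorem int_genL (k : ℕ) (ε : ℝ) (hε : 0 < ε) : ∃ c : ℝ, 0 < c ∧
    ∀ (A : Finset ℤ) (ι : Type) (T : Finset ι) (u d : ι → ℤ) (L : ℕ), 1 ≤ L → A.Nonempty →
    (∀ i ∈ T, IsCoprime (u i) (d i)) →
    (∀ x ∈ A, ∃ i ∈ T, ∃ j : ℕ, j ≤ L ∧ x = u i + j * d i) →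
    c * ((L : ℝ) * A.card) ^ (-ε) *
      min ((A.card : ℝ) ^ k) (((A.card : ℝ) / T.card) ^ (2 * k)) ≤ ((PZ A k).card : ℝ) := by
  classical
  obtain ⟨c1, hc1, hc11, hgen⟩ := nat_gen k ε hε
  refine ⟨c1 / 9 ^ k, by positivity, ?_⟩
  intro A ι T u d L hL hAne hcop hcov
  have hLr : (1 : ℝ) ≤ L := by exact_mod_cast hL
  set n := A.card with hn
  have hn1 : 1 ≤ n := hAne.card_pos
  have hn1r : (1 : ℝ) ≤ n := by exact_mod_cast hn1
  have hT1 : 1 ≤ T.card := by
    obtain ⟨x, hx⟩ := hAne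
    obtain ⟨i, hi, _⟩ := hcov x hx
    exact Finset.card_pos.2 ⟨i, hi⟩
  have hT1r : (1 : ℝ) ≤ T.card := by exact_mod_cast hT1
  have hPZ : (1 : ℝ) ≤ ((PZ A k).card : ℝ) := by
    obtain ⟨x, hx⟩ := hAne
    have : 0 < (PZ A k).card := Finset.card_pos.2
      ⟨∏ _i : Fin k, x, Finset.mem_image.2 ⟨fun _ => x, Fintype.mem_piFinset.2 fun _ => hx, rfl⟩⟩
    exact_mod_cast this
  have hLn : 1 ≤ (L : ℝ) * n := one_le_mul_of_one_le_of_one_le hLr hn1r
  have hnε1 : ((L : ℝ) * n) ^ (-ε) ≤ 1 := Real.rpow_le_one_of_one_le_of_nonpos hLn (by linarith)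
  have hnε0 : 0 < ((L : ℝ) * n) ^ (-ε) := Real.rpow_pos_of_pos (by linarith) _
  by_cases hsmall : n ≤ 2
  · have h1 : min ((n : ℝ) ^ k) (((n : ℝ) / T.card) ^ (2 * k)) ≤ 9 ^ k := by
      refine (min_le_left _ _).trans (pow_le_pow_left₀ (by positivity) ?_ k)
      have : (n : ℝ) ≤ 2 := by exact_mod_cast hsmall
      linarith
    calc c1 / 9 ^ k * ((L : ℝ) * n) ^ (-ε) * min ((n : ℝ) ^ k) (((n : ℝ) / T.card) ^ (2 * k))
        ≤ c1 / 9 ^ k * 1 * 9 ^ k := by
          refine mul_le_mul (mul_le_mul_of_nonneg_left hnε1 (by positivity)) h1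
            (le_min (by positivity) (by positivity)) (by positivity)
      _ = c1 := by field_simp
      _ ≤ _ := by linarith
  -- one of the two signs
  have hsgn : ∃ s : ℤ, (s = 1 ∨ s = -1) ∧ n ≤ 3 * (A.filter fun a => 0 < s * a).card := by
    by_contra hcon
    push Not at hcon
    have h1 := hcon 1 (Or.inl rfl)
    have h2 := hcon (-1) (Or.inr rfl)
    have h3 : A ⊆ insert 0 ((A.filter fun a => 0 < 1 * a) ∪ (A.filter fun a => 0 < -1 * a)) := by
      intro a ha
      rcases lt_trichotomy a 0 with h | h | h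
      · exact Finset.mem_insert_of_mem (Finset.mem_union_right _
          (Finset.mem_filter.2 ⟨ha, by omega⟩))
      · rw [h]; exact Finset.mem_insert_self _ _
      · exact Finset.mem_insert_of_mem (Finset.mem_union_left _
          (Finset.mem_filter.2 ⟨ha, by omega⟩))
    have h4 := (Finset.card_le_card h3).trans ((Finset.card_insert_le _ _).trans
      (Nat.add_le_add_right (Finset.card_union_le _ _) 1))
    omega
  obtain ⟨s, hs, hsn⟩ := hsgn
  set A' := A.filter fun a => 0 < s * a with hA'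
  set B := A'.image Int.natAbs with hB
  have hss : s * s = 1 := by rcases hs with rfl | rfl <;> norm_num
  have hback : ∀ a ∈ A', a = s * (Int.natAbs a : ℤ) := by
    intro a ha
    have h1 := (Finset.mem_filter.1 ha).2
    rcases hs with rfl | rfl
    · have : 0 < a := by linarith
      omega
    · have : a < 0 := by linarith
      omega
  have hBcard : B.card = A'.card := by
    refine Finset.card_image_of_injOn ?_
    intro a ha b hb hab
    rw [hback a ha, hback b hb]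
    have : Int.natAbs a = Int.natAbs b := hab
    rw [this]
  have hBA : ∀ b ∈ B, s * (b : ℤ) ∈ A := by
    intro b hb
    obtain ⟨a, ha, rfl⟩ := Finset.mem_image.1 hb
    rw [← hback a ha]
    exact (Finset.mem_filter.1 ha).1
  have hB0 : ∀ b ∈ B, b ≠ 0 := by
    intro b hb h0
    obtain ⟨a, ha, hab⟩ := Finset.mem_image.1 hb
    have h1 := hback a ha
    rw [hab, h0] at h1
    have h2 := (Finset.mem_filter.1 ha).2
    rw [h1] at h2
    simp at h2
  have hBne : B.Nonempty := by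
    refine Finset.card_pos.1 ?_
    rw [hBcard]; omega
  obtain ⟨i₀, hi₀⟩ : T.Nonempty := Finset.card_pos.1 hT1
  -- the colouring
  set col : ℕ → ι := fun b => if h : s * (b : ℤ) ∈ A then (hcov _ h).choose else i₀ with hcol
  have hcolT : ∀ b ∈ B, col b ∈ T ∧ ∃ j : ℕ, j ≤ L ∧ s * (b : ℤ) = u (col b) + j * d (col b) := by
    intro b hb
    have h := hBA b hb
    have e : col b = (hcov _ h).choose := by rw [hcol]; simp only [dif_pos h]
    have h1 := (hcov _ h).choose_spec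
    rw [← e] at h1
    exact h1
  have hgcd : ∀ z ∈ B, ∀ w ∈ B, z ≠ w → col z = col w → Nat.gcd z w ≤ L := by
    intro z hz w hw hne hc
    obtain ⟨hzT, j, hj, hzj⟩ := hcolT z hz
    obtain ⟨hwT, j', hj', hwj⟩ := hcolT w hw
    rw [← hc] at hwj
    set i := col z
    have hgz : ((Nat.gcd z w : ℕ) : ℤ) ∣ s * (z : ℤ) :=
      Dvd.dvd.mul_left (Int.natCast_dvd_natCast.2 (Nat.gcd_dvd_left z w)) _
    have hgw : ((Nat.gcd z w : ℕ) : ℤ) ∣ s * (w : ℤ) :=
      Dvd.dvd.mul_left (Int.natCast_dvd_natCast.2 (Nat.gcd_dvd_right z w)) _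
    have hdiff : s * (z : ℤ) - s * (w : ℤ) = ((j : ℤ) - j') * d i := by rw [hzj, hwj]; ring
    have hd1 : ((Nat.gcd z w : ℕ) : ℤ) ∣ ((j : ℤ) - j') * d i := hdiff ▸ dvd_sub hgz hgw
    have hcp : IsCoprime ((Nat.gcd z w : ℕ) : ℤ) (d i) := by
      have h1 : IsCoprime (s * (z : ℤ)) (d i) := by
        rw [hzj]
        exact IsCoprime.add_mul_right_left (hcop i hzT) _
      exact IsCoprime.of_isCoprime_of_dvd_left h1 hgz
    have hd2 : ((Nat.gcd z w : ℕ) : ℤ) ∣ (j : ℤ) - j' := hcp.dvd_of_dvd_mul_right hd1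
    have hjj : (j : ℤ) - j' ≠ 0 := by
      intro h0
      rw [h0, zero_mul, sub_eq_zero] at hdiff
      have h1 : s * (s * (z : ℤ)) = s * (s * (w : ℤ)) := by rw [hdiff]
      rw [← mul_assoc, ← mul_assoc, hss, one_mul, one_mul] at h1
      exact hne (by exact_mod_cast h1)
    have h3 : Nat.gcd z w ≤ ((j : ℤ) - j').natAbs := by
      refine Nat.le_of_dvd (Int.natAbs_pos.2 hjj) ?_
      exact Int.natCast_dvd.1 hd2
    have h4 : ((j : ℤ) - j').natAbs ≤ L := by omega
    exact h3.trans h4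
  have h1 := hgen ι inferInstance B L col hL hB0 hBne hgcd
  -- the product sets
  have h2 : ((PS B k).card : ℝ) ≤ ((PZ A k).card : ℝ) := by
    have : (PS B k).card ≤ (PZ A k).card := by
      refine Finset.card_le_card_of_injOn (fun m => s ^ k * (m : ℤ)) ?_ ?_
      · intro m hm
        obtain ⟨t, ht, rfl⟩ := Finset.mem_image.1 hm
        rw [Fintype.mem_piFinset] at ht
        rw [Finset.mem_coe]
        refine Finset.mem_image.2 ⟨fun i => s * (t i : ℤ), ?_, ?_⟩
        · exact Fintype.mem_piFinset.2 fun i => hBA _ (ht i)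
        · unfold pr
          rw [Finset.prod_mul_distrib]
          simp
      · intro m _ m' _ h
        have hs0 : s ^ k ≠ 0 := pow_ne_zero k (by rintro rfl; simp at hss)
        have := mul_left_cancel₀ hs0 h
        exact_mod_cast this
    exact_mod_cast this
  refine le_trans ?_ (h1.trans h2)
  -- numerical comparison
  have hBn : (B.card : ℝ) ≤ n := by
    have : B.card ≤ n := by rw [hBcard]; exact Finset.card_filter_le _ _
    exact_mod_cast this
  have hnB : (n : ℝ) ≤ 3 * B.card := by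
    have : n ≤ 3 * B.card := by rw [hBcard]; exact hsn
    exact_mod_cast this
  have hB1 : (1 : ℝ) ≤ B.card := by exact_mod_cast hBne.card_pos
  have hK1 : (1 : ℝ) ≤ (B.image col).card := by exact_mod_cast (hBne.image col).card_pos
  have hKT : ((B.image col).card : ℝ) ≤ T.card := by
    have : (B.image col).card ≤ T.card := by
      refine Finset.card_le_card ?_
      intro i hi
      obtain ⟨b, hb, rfl⟩ := Finset.mem_image.1 hi
      exact (hcolT b hb).1
    exact_mod_cast this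
  have hp : ((L : ℝ) * n) ^ (-ε) ≤ ((L : ℝ) * B.card) ^ (-ε) := by
    refine Real.rpow_le_rpow_of_nonpos (by nlinarith) ?_ (by linarith)
    exact mul_le_mul_of_nonneg_left hBn (by linarith)
  have hmin := min_aux k hnB hB1 hK1 hKT hn1r
  exact fin_aux (pow_pos (by norm_num) k) hc1.le hp
    (le_min (pow_nonneg (by linarith) _) (pow_nonneg (div_nonneg (by linarith) (by linarith)) _))
    hmin (Real.rpow_nonneg (mul_nonneg (Nat.cast_nonneg _) (by linarith)) _)

theorem root_aux {k : ℕ} (hk : 1 ≤ k) {ε c1 Z μ M a p x : ℝ} (hkε : 1 ≤ ε * k)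
    (hc1 : 0 < c1) (hZ : 1 ≤ Z) (ha : 1 ≤ a) (hμ : 0 ≤ μ) (hx : 0 ≤ x) (hM : μ ^ k ≤ M)
    (h1 : c1 * Z ^ (-1 : ℝ) * M ≤ p) (h2 : p * a ^ k ≤ x ^ k * a) :
    min c1 1 * (Z * a) ^ (-ε) * (a * μ) ≤ x := by
  have hY : 1 ≤ Z * a := one_le_mul_of_one_le_of_one_le hZ ha
  have hZ0 : 0 < Z := by linarith
  have ha0 : 0 < a := by linarith
  have hmin0 : 0 < min c1 1 := by positivity
  have hpow0 : 0 < (Z * a) ^ (-ε) := Real.rpow_pos_of_pos (by linarith) _
  refine (pow_le_pow_iff_left₀ (by positivity) hx (by omega : k ≠ 0)).1 ?_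
  have e1 : min c1 1 ^ k ≤ c1 :=
    (pow_le_of_le_one hmin0.le (min_le_right _ _) (by omega)).trans (min_le_left _ _)
  have e2 : ((Z * a) ^ (-ε)) ^ k ≤ (Z * a)⁻¹ := by
    rw [← Real.rpow_natCast, ← Real.rpow_mul (by linarith), ← Real.rpow_neg_one]
    refine Real.rpow_le_rpow_of_exponent_le hY ?_
    linarith
  have e3 : c1 * Z⁻¹ * μ ^ k * a ^ k ≤ x ^ k * a := by
    refine le_trans ?_ h2
    refine mul_le_mul_of_nonneg_right ?_ (by positivity)
    rw [Real.rpow_neg_one] at h1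
    refine le_trans ?_ h1
    exact mul_le_mul_of_nonneg_left hM (by positivity)
  calc (min c1 1 * (Z * a) ^ (-ε) * (a * μ)) ^ k
      = min c1 1 ^ k * ((Z * a) ^ (-ε)) ^ k * (a ^ k * μ ^ k) := by rw [mul_pow, mul_pow, mul_pow]
    _ ≤ c1 * (Z * a)⁻¹ * (a ^ k * μ ^ k) := by
        refine mul_le_mul_of_nonneg_right ?_ (by positivity)
        exact mul_le_mul e1 e2 (by positivity) hc1.le
    _ = (c1 * Z⁻¹ * μ ^ k * a ^ k) * a⁻¹ := by
        rw [mul_inv]; ring
    _ ≤ (x ^ k * a) * a⁻¹ := mul_le_mul_of_nonneg_right e3 (by positivity)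
    _ = x ^ k := by field_simp

open Pool.Agent.R849.RF in
theorem arbL (ε : ℝ) (hε : 0 < ε) : ∃ c : ℝ, 0 < c ∧
    ∀ (B : Finset ℤ) (ι : Type) (T : Finset ι) (u d : ι → ℤ) (L : ℕ), 1 ≤ L → B.Nonempty →
    (0 : ℤ) ∉ B → (∀ i ∈ T, IsCoprime (u i) (d i)) →
    (∀ x ∈ B, ∃ i ∈ T, ∃ j : ℕ, j ≤ L ∧ x = u i + j * d i) →
    ∀ A : Finset ℂ, A.Nonempty → (0 : ℂ) ∉ A →
    c * ((L : ℝ) * B.card * A.card) ^ (-ε) * (A.card *
      min (B.card : ℝ) (((B.card : ℝ) / T.card) ^ 2)) ≤ ((AB A B).card : ℝ) := by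
  obtain ⟨k0, hk0⟩ := exists_nat_ge (1 / ε)
  set k : ℕ := k0 + 1 with hk
  have hkε : 1 ≤ ε * k := by
    rw [div_le_iff₀ hε] at hk0
    have : (k : ℝ) = k0 + 1 := by rw [hk]; push_cast; ring
    rw [this]
    nlinarith
  obtain ⟨c1, hc1, hgen⟩ := int_genL k 1 one_pos
  refine ⟨min c1 1, by positivity, ?_⟩
  intro B ι T u d L hL hB h0B hcop hcov A hA h0A
  have h1 := hgen B ι T u d L hL hB hcop hcov
  have h2 := plun A hA h0A B h0B k
  have hpk : ((PZ B k).card : ℝ) = ((Pool.Agent.Y359.PE.pk k B).card : ℝ) := by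
    unfold PZ Pool.Agent.Y359.PE.pk
    congr 2
  rw [hpk] at h1
  have hLr : (1 : ℝ) ≤ L := by exact_mod_cast hL
  have hb1 : (1 : ℝ) ≤ B.card := by exact_mod_cast hB.card_pos
  have ha1 : (1 : ℝ) ≤ A.card := by exact_mod_cast hA.card_pos
  have hT1 : 1 ≤ T.card := by
    obtain ⟨x, hx⟩ := hB
    obtain ⟨i, hi, _⟩ := hcov x hx
    exact Finset.card_pos.2 ⟨i, hi⟩
  have hTr : (1 : ℝ) ≤ T.card := by exact_mod_cast hT1
  have hx0 : (0 : ℝ) ≤ ((AB A B).card : ℝ) := Nat.cast_nonneg _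
  have hq : (0 : ℝ) ≤ (B.card : ℝ) / T.card := div_nonneg (by linarith) (by linarith)
  refine root_aux (M := min ((B.card : ℝ) ^ k) (((B.card : ℝ) / T.card) ^ (2 * k)))
    (by omega) hkε hc1 (one_le_mul_of_one_le_of_one_le hLr hb1) ha1
    (le_min (by linarith) (pow_nonneg hq 2)) hx0 ?_ h1 h2
  refine le_min ?_ ?_
  · exact pow_le_pow_left₀ (le_min (by linarith) (pow_nonneg hq 2)) (min_le_left _ _) k
  · rw [pow_mul]
    exact pow_le_pow_left₀ (le_min (by linarith) (pow_nonneg hq 2)) (min_le_right _ _) k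

end Pool.Agent.R926.KI
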