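import Pool.Agent.R926.KI.Core

set_option autoImplicit false

/-!
# Coincidences with one pair of small ratio
-/

namespace Pool.Agent.R926.KI

open Finset Pool.Agent.Y385.SPI

theorem card_le_cnt {ι : Type*} (G : Finset ι) (π : ι → ℕ) : G.card ≤ cnt G π (1, 1) := by
  classical
  unfold cnt
  refine Finset.card_le_card_of_injOn (fun u => (u, u)) ?_ ?_
  · intro u hu
    rw [Finset.mem_coe, Finset.mem_filter, Finset.mem_product]
    exact ⟨⟨hu, hu⟩, rfl⟩
  · intro u _ v _ h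
    exact (Prod.ext_iff.1 h).1

theorem close_bound (k : ℕ) (ε : ℝ) (hε : 0 < ε) : ∃ K : ℝ, 1 ≤ K ∧ ∀ H : ℕ, 1 ≤ H →
    ∀ A : Finset ℕ, (∀ x ∈ A, x ≠ 0) → A.Nonempty → ∀ (ι : Type) (G : Finset ι) (π : ι → ℕ),
    (∀ u ∈ G, π u ≠ 0) → (G.card : ℝ) ≤ (A.card : ℝ) ^ k →
    ∑ p ∈ PH H, (rep A p : ℝ) * (cnt G π p : ℝ) ≤
      K * ((H : ℝ) * A.card) ^ ε * A.card * cnt G π (1, 1) := by
  obtain ⟨m0, hm0⟩ := exists_nat_ge (2 * k / ε)
  set m : ℕ := m0 + 1 with hm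
  have hm1 : 1 ≤ m := by omega
  have hmk : (k : ℝ) ≤ m * (ε / 2) := by
    rw [div_le_iff₀ hε] at hm0
    have : (m : ℝ) = m0 + 1 := by rw [hm]; push_cast; ring
    rw [this]
    nlinarith
  set s : ℕ := 2 * m + 2 with hs
  set C : ℝ := (2 : ℝ) ^ s with hC
  have hC2 : 2 ≤ C := by
    rw [hC]
    calc (2 : ℝ) = 2 ^ 1 := by norm_num
      _ ≤ 2 ^ s := pow_le_pow_right₀ (by norm_num) (by omega)
  have hCm : 4 * (m * (2 * m - 1) * 2 ^ (m - 1)) ≤ C ^ 2 := by
    have h1 : (m : ℝ) ≤ 2 ^ m := by exact_mod_cast (Nat.lt_two_pow_self (n := m)).le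
    have hm1' : (1 : ℝ) ≤ m := by exact_mod_cast hm1
    have h2 : (m : ℝ) * (2 * m - 1) ≤ 2 * (2 ^ m * 2 ^ m) := by nlinarith
    have h3 : (2 : ℝ) ^ (m - 1) ≤ 2 ^ m := pow_le_pow_right₀ (by norm_num) (by omega)
    have h4 : (m : ℝ) * (2 * m - 1) * 2 ^ (m - 1) ≤ 2 * (2 ^ m * 2 ^ m) * 2 ^ m :=
      mul_le_mul h2 h3 (by positivity) (by positivity)
    have h5 : C ^ 2 = 16 * (2 ^ m * 2 ^ m) * (2 ^ m * 2 ^ m) := by
      rw [hC, hs, pow_add, mul_pow, ← pow_mul, ← pow_mul]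
      have : (2 : ℝ) ^ (2 * m * 2) = (2 ^ m * 2 ^ m) * (2 ^ m * 2 ^ m) := by
        rw [← pow_add, ← pow_add]; congr 1; ring
      rw [this]; norm_num; ring
    rw [h5]
    have h6 : (1 : ℝ) ≤ 2 ^ m := one_le_pow₀ (by norm_num)
    have h7 : 0 < (2 : ℝ) ^ m * 2 ^ m * 2 ^ m := by positivity
    nlinarith
  set η : ℝ := ε / (8 * (s + 1)) with hη
  have hη0 : 0 < η := by positivity
  obtain ⟨K1, hK1, hdiv⟩ := Pool.Agent.H510R2.divisor_bound η hη0
  obtain ⟨K0, hK0, hrep⟩ := rep_bound (ε / 2) (by positivity)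
  set K0' : ℝ := max K0 1 with hK0'
  have hK01 : 1 ≤ K0' := le_max_right _ _
  set K1' : ℝ := max K1 1 with hK1'
  have hK11 : 1 ≤ K1' := le_max_right _ _
  refine ⟨K1' ^ (2 * (s + 1)) * K0', ?_, ?_⟩
  · exact one_le_mul_of_one_le_of_one_le (one_le_pow₀ hK11) hK01
  intro H hH A hA hAne ι G π hG hGk
  have hH1 : (1 : ℝ) ≤ H := by exact_mod_cast hH
  have hA1 : (1 : ℝ) ≤ A.card := by exact_mod_cast hAne.card_pos
  set n : ℕ := (G.sup π + 1) * (H + 1) + (H + 1) * (H + 1) + 1 with hn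
  have hP : ∀ p ∈ PH H, (1 ≤ p.1 ∧ p.1 ≤ H) ∧ (1 ≤ p.2 ∧ p.2 ≤ H) ∧ Nat.Coprime p.1 p.2 := by
    intro p hp
    unfold PH at hp
    rw [Finset.mem_filter, Finset.mem_product, Finset.mem_Icc, Finset.mem_Icc] at hp
    exact ⟨hp.1.1, hp.1.2, hp.2⟩
  have hbig : ∀ x ∈ G, ∀ k, k ≤ H → π x * k < n := by
    intro x hx k hk
    have h1 : π x ≤ G.sup π := Finset.le_sup (f := π) hx
    have h2 : π x * k ≤ (G.sup π + 1) * (H + 1) := Nat.mul_le_mul (by omega) (by omega)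
    omega
  have hbig2 : ∀ j k, j ≤ H → k ≤ H → j * k < n := by
    intro j k hj hk
    have h2 : j * k ≤ (H + 1) * (H + 1) := Nat.mul_le_mul (by omega) (by omega)
    omega
  have hbig3 : ∀ k, k ≤ H → k < n := by
    intro k hk
    have := hbig2 k 1 hk hH
    omega
  set Wm : ℝ := (K1' * (H : ℝ) ^ η * (K1' * (H : ℝ) ^ η)) ^ (s + 1) with hWm
  have hW : ∀ p ∈ PH H, Wt C (fr n p) ≤ Wm := by
    intro p hp
    have hp' := hP p hp
    refine (Wt_le s n p (by omega) (by omega) hp'.2.2).trans ?_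
    refine pow_le_pow_left₀ (by positivity) ?_ _
    have hd : ∀ q : ℕ, 1 ≤ q → q ≤ H → (q.divisors.card : ℝ) ≤ K1' * (H : ℝ) ^ η := by
      intro q h1 h2
      refine (hdiv q h1).trans ?_
      exact mul_le_mul (le_max_left _ _) (Real.rpow_le_rpow (by positivity)
        (by exact_mod_cast h2) hη0.le) (by positivity) (by positivity)
    exact mul_le_mul (hd _ hp'.1.1 hp'.1.2) (hd _ hp'.2.1.1 hp'.2.1.2) (by positivity)
      (by positivity)
  have hcore := core' m hm1 C hC2 hCm G π hG (PH H) (fun p hp => by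
      have := hP p hp
      exact ⟨by omega, by omega, this.2.2⟩) (fun p => (rep A p : ℝ)) (fun p => by positivity) n
    (fun x hx p hp => by
      have := hP p hp
      exact ⟨hbig x hx _ this.1.2, hbig x hx _ this.2.1.2, hbig2 _ _ this.1.2 this.2.1.2,
        hbig3 _ this.1.2, hbig3 _ this.2.1.2⟩)
    (fun p hp q hq => hbig2 _ _ (hP p hp).1.2 (hP q hq).2.1.2) Wm hW
  have hS := hrep H hH A hA hAne
  set X : ℝ := ∑ p ∈ PH H, (rep A p : ℝ) * (cnt G π p : ℝ) with hX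
  set S : ℝ := ∑ p ∈ PH H, (rep A p : ℝ) ^ 2 with hSdef
  set E : ℝ := (cnt G π (1, 1) : ℝ) with hE
  set a : ℝ := (A.card : ℝ) with ha
  have hX0 : 0 ≤ X := Finset.sum_nonneg fun p _ => by positivity
  have hS0 : 0 ≤ S := Finset.sum_nonneg fun p _ => by positivity
  have hE0 : 0 ≤ E := by rw [hE]; positivity
  have hGE : (G.card : ℝ) ≤ E := by rw [hE]; exact_mod_cast card_le_cnt G π
  have ha0 : 0 < a := by linarith
  have hHa : 1 ≤ (H : ℝ) * a := one_le_mul_of_one_le_of_one_le hH1 hA1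
  -- the factor of G
  have hg : E ^ (2 * m - 1) * (G.card : ℝ) ^ 2 ≤ E ^ (2 * m) * a ^ k := by
    calc E ^ (2 * m - 1) * (G.card : ℝ) ^ 2 = E ^ (2 * m - 1) * (G.card * G.card) := by ring
      _ ≤ E ^ (2 * m - 1) * (E * a ^ k) := by
          refine mul_le_mul_of_nonneg_left ?_ (by positivity)
          exact mul_le_mul hGE hGk (by positivity) hE0
      _ = E ^ (2 * m - 1 + 1) * a ^ k := by rw [pow_succ]; ring
      _ = _ := by rw [show 2 * m - 1 + 1 = 2 * m by omega]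
  have hS' : S ≤ K0' * ((H : ℝ) * a) ^ (ε / 2) * a ^ 2 := by
    refine hS.trans ?_
    refine mul_le_mul_of_nonneg_right ?_ (by positivity)
    exact mul_le_mul_of_nonneg_right (le_max_left _ _) (by positivity)
  -- numerical bounds
  have hak : a ^ k ≤ ((H : ℝ) * a) ^ ((m : ℝ) * (ε / 2)) := by
    rw [← Real.rpow_natCast]
    calc a ^ (k : ℝ) ≤ a ^ ((m : ℝ) * (ε / 2)) := Real.rpow_le_rpow_of_exponent_le hA1 hmk
      _ ≤ ((H : ℝ) * a) ^ ((m : ℝ) * (ε / 2)) := by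
          refine Real.rpow_le_rpow ha0.le ?_ (by positivity)
          nlinarith
  have hWm2 : Wm ^ (2 * m) ≤ (K1' ^ (2 * (s + 1))) ^ (2 * m) * ((H : ℝ) * a) ^ ((m : ℝ) * (ε / 2)) := by
    have e2 : Wm = K1' ^ (2 * (s + 1)) * ((H : ℝ) ^ η) ^ (2 * (s + 1)) := by
      rw [hWm, mul_pow, mul_pow, pow_mul', pow_mul']
      ring
    rw [e2, mul_pow]
    refine mul_le_mul_of_nonneg_left ?_ (by positivity)
    rw [← pow_mul, ← Real.rpow_natCast ((H : ℝ) ^ η), ← Real.rpow_mul (by positivity)]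
    have e3 : η * ((2 * (s + 1) * (2 * m) : ℕ) : ℝ) = (m : ℝ) * (ε / 2) := by
      rw [hη]
      push_cast
      field_simp
      ring
    rw [e3]
    refine Real.rpow_le_rpow (by positivity) ?_ (by positivity)
    nlinarith
  have hfin : X ^ (2 * m) ≤ (K1' ^ (2 * (s + 1)) * K0' * ((H : ℝ) * a) ^ ε * a * E) ^ (2 * m) := by
    calc X ^ (2 * m) ≤ E ^ (2 * m - 1) * ((G.card : ℝ) ^ 2 * (Wm ^ 2 * S) ^ m) := hcore
      _ = (E ^ (2 * m - 1) * (G.card : ℝ) ^ 2) * (Wm ^ (2 * m) * S ^ m) := by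
          rw [mul_pow, ← pow_mul]; ring
      _ ≤ (E ^ (2 * m) * a ^ k) * (Wm ^ (2 * m) * (K0' * ((H : ℝ) * a) ^ (ε / 2) * a ^ 2) ^ m) := by
          refine mul_le_mul hg ?_ (by positivity) (by positivity)
          refine mul_le_mul_of_nonneg_left ?_ (by positivity)
          exact pow_le_pow_left₀ hS0 hS' m
      _ = E ^ (2 * m) * (a ^ k * (Wm ^ (2 * m) * (K0' ^ m * (((H : ℝ) * a) ^ (ε / 2)) ^ m * a ^ (2 * m)))) := by
          rw [mul_pow, mul_pow, ← pow_mul]; ring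
      _ ≤ E ^ (2 * m) * (((H : ℝ) * a) ^ ((m : ℝ) * (ε / 2)) *
            (((K1' ^ (2 * (s + 1))) ^ (2 * m) * ((H : ℝ) * a) ^ ((m : ℝ) * (ε / 2))) *
            (K0' ^ (2 * m) * ((H : ℝ) * a) ^ ((m : ℝ) * (ε / 2)) * a ^ (2 * m)))) := by
          refine mul_le_mul_of_nonneg_left ?_ (by positivity)
          refine mul_le_mul hak ?_ (by positivity) (by positivity)
          refine mul_le_mul hWm2 ?_ (by positivity) (by positivity)
          refine mul_le_mul_of_nonneg_right ?_ (by positivity)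
          have e4 : (((H : ℝ) * a) ^ (ε / 2)) ^ m = ((H : ℝ) * a) ^ ((m : ℝ) * (ε / 2)) := by
            rw [← Real.rpow_natCast (((H : ℝ) * a) ^ (ε / 2)), ← Real.rpow_mul (by positivity)]
            congr 1; ring
          rw [e4]
          refine mul_le_mul_of_nonneg_right ?_ (by positivity)
          exact pow_le_pow_right₀ hK01 (by omega)
      _ = E ^ (2 * m) * ((K1' ^ (2 * (s + 1))) ^ (2 * m) * K0' ^ (2 * m) * a ^ (2 * m)) *
            ((H : ℝ) * a) ^ ((m : ℝ) * (ε / 2) + (m : ℝ) * (ε / 2) + (m : ℝ) * (ε / 2)) := by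
          rw [Real.rpow_add (by positivity), Real.rpow_add (by positivity)]; ring
      _ ≤ E ^ (2 * m) * ((K1' ^ (2 * (s + 1))) ^ (2 * m) * K0' ^ (2 * m) * a ^ (2 * m)) *
            ((H : ℝ) * a) ^ (ε * ((2 * m : ℕ) : ℝ)) := by
          refine mul_le_mul_of_nonneg_left ?_ (by positivity)
          refine Real.rpow_le_rpow_of_exponent_le hHa ?_
          push_cast
          have : 0 ≤ (m : ℝ) * ε := by positivity
          nlinarith
      _ = _ := by
          rw [Real.rpow_mul (by positivity), Real.rpow_natCast]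
          ring
  exact (pow_le_pow_iff_left₀ hX0 (by positivity) (by omega)).1 hfin

end Pool.Agent.R926.KI
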