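import Mathlib

set_option autoImplicit false

/-!
# Large common divisors
-/

namespace Pool.Agent.R926.KI

open Finset

/-- a divisor of a product divides the product of the common divisors -/
theorem le_prod_gcd {ι : Type*} (s : Finset ι) (y : ι → ℕ) (x : ℕ) (h : x ∣ ∏ j ∈ s, y j) :
    x ∣ ∏ j ∈ s, Nat.gcd x (y j) := by
  classical
  induction s using Finset.induction_on with
  | empty => simpa using h
  | insert a s ha ih =>
    rw [Finset.prod_insert ha] at h ⊢
    have h1 : x ∣ Nat.gcd x (y a) * Nat.gcd x (∏ j ∈ s, y j) :=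
      (Nat.dvd_gcd_mul_gcd_iff_dvd_mul).2 h
    have h2 : ∀ t : Finset ι, Nat.gcd x (∏ j ∈ t, y j) ∣ ∏ j ∈ t, Nat.gcd x (y j) := by
      intro t
      induction t using Finset.induction_on with
      | empty => simp
      | insert b t hb ih2 =>
        rw [Finset.prod_insert hb, Finset.prod_insert hb]
        exact (Nat.gcd_mul_right_dvd_mul_gcd x _ _).trans (Nat.mul_dvd_mul_left _ ih2)
    exact h1.trans (Nat.mul_dvd_mul_left _ (h2 s))

/-- one of the factors has a large common divisor with `x` -/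
theorem exists_large_gcd {ι : Type*} (s : Finset ι) (y : ι → ℕ) (x : ℕ) (hx : 1 < x)
    (hy : ∀ j ∈ s, y j ≠ 0) (k : ℕ) (hk : s.card ≤ k)
    (h : x ∣ ∏ j ∈ s, y j) : ∃ j ∈ s, x ≤ Nat.gcd x (y j) ^ k := by
  by_contra hcon
  push Not at hcon
  have h1 := le_prod_gcd s y x h
  have hpos : ∀ j ∈ s, 0 < Nat.gcd x (y j) := fun j _ => Nat.gcd_pos_of_pos_left _ (by omega)
  have h2 : x ≤ ∏ j ∈ s, Nat.gcd x (y j) := Nat.le_of_dvd (Finset.prod_pos hpos) h1
  rcases s.eq_empty_or_nonempty with rfl | hne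
  · simp at h2; omega
  have hk0 : 0 < k := lt_of_lt_of_le hne.card_pos hk
  have h3 : (∏ j ∈ s, Nat.gcd x (y j)) ^ k < x ^ s.card := by
    rw [← Finset.prod_pow]
    calc ∏ j ∈ s, Nat.gcd x (y j) ^ k < ∏ _j ∈ s, x :=
          Finset.prod_lt_prod_of_nonempty (fun j hj => pow_pos (hpos j hj) k) hcon hne
      _ = x ^ s.card := by simp
  have h4 : x ^ k ≤ (∏ j ∈ s, Nat.gcd x (y j)) ^ k := Nat.pow_le_pow_left h2 k
  have h5 : x ^ s.card ≤ x ^ k := Nat.pow_le_pow_right (by omega) hk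
  omega

/-- the product of numbers with small pairwise common divisors is not much larger than their least
common multiple -/
theorem prod_le_lcm {ι : Type*} (s : Finset ι) (d : ι → ℕ) (L k : ℕ) (hL : 1 ≤ L)
    (hd : ∀ i ∈ s, d i ≠ 0) (hk : s.card ≤ k + 1)
    (h : ∀ i ∈ s, ∀ j ∈ s, i ≠ j → Nat.gcd (d i) (d j) ≤ L) :
    ∏ i ∈ s, d i ≤ s.lcm d * (L ^ k) ^ s.card := by
  classical
  induction s using Finset.induction_on with
  | empty => simp
  | insert a s ha ih =>
    rw [Finset.card_insert_of_notMem ha] at hk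
    have ih' := ih (fun i hi => hd i (Finset.mem_insert_of_mem hi)) (by omega)
      (fun i hi j hj => h i (Finset.mem_insert_of_mem hi) j (Finset.mem_insert_of_mem hj))
    rw [Finset.prod_insert ha, Finset.card_insert_of_notMem ha, Finset.lcm_insert]
    have hgcd : Nat.gcd (d a) (s.lcm d) ≤ L ^ k := by
      have h1 : Nat.gcd (d a) (s.lcm d) ∣ ∏ j ∈ s, Nat.gcd (d a) (d j) := by
        have h0 : s.lcm d ∣ ∏ j ∈ s, d j := Finset.lcm_dvd fun j hj => Finset.dvd_prod_of_mem d hj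
        have h2 : ∀ t : Finset ι, Nat.gcd (d a) (∏ j ∈ t, d j) ∣ ∏ j ∈ t, Nat.gcd (d a) (d j) := by
          intro t
          induction t using Finset.induction_on with
          | empty => simp
          | insert b t hb ih2 =>
            rw [Finset.prod_insert hb, Finset.prod_insert hb]
            exact (Nat.gcd_mul_right_dvd_mul_gcd _ _ _).trans (Nat.mul_dvd_mul_left _ ih2)
        exact (Nat.gcd_dvd_gcd_of_dvd_right _ h0).trans (h2 s)
      have hpos : 0 < ∏ j ∈ s, Nat.gcd (d a) (d j) :=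
        Finset.prod_pos fun j _ => Nat.gcd_pos_of_pos_left _
          (Nat.pos_of_ne_zero (hd a (Finset.mem_insert_self _ _)))
      calc Nat.gcd (d a) (s.lcm d) ≤ ∏ j ∈ s, Nat.gcd (d a) (d j) := Nat.le_of_dvd hpos h1
        _ ≤ ∏ _j ∈ s, L := Finset.prod_le_prod' fun j hj =>
            h a (Finset.mem_insert_self _ _) j (Finset.mem_insert_of_mem hj)
              (fun e => ha (e ▸ hj))
        _ = L ^ s.card := by simp
        _ ≤ L ^ k := Nat.pow_le_pow_right (by omega) (by omega)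
    have hlcm : d a * s.lcm d = Nat.gcd (d a) (s.lcm d) * Nat.lcm (d a) (s.lcm d) :=
      (Nat.gcd_mul_lcm _ _).symm
    calc d a * ∏ i ∈ s, d i ≤ d a * (s.lcm d * (L ^ k) ^ s.card) := Nat.mul_le_mul_left _ ih'
      _ = (Nat.gcd (d a) (s.lcm d) * Nat.lcm (d a) (s.lcm d)) * (L ^ k) ^ s.card := by
          rw [← hlcm]; ring
      _ ≤ (L ^ k * Nat.lcm (d a) (s.lcm d)) * (L ^ k) ^ s.card := by gcongr
      _ = _ := by
          rw [pow_succ]
          change _ = Nat.lcm (d a) (s.lcm d) * _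
          ring

/-- the threshold -/
def thr (L k : ℕ) : ℕ := L ^ (k ^ 2 * (k + 1))

/-- few elements of one colour have a large common divisor with a large number -/
theorem few_large (Z : Finset ℕ) (L k b : ℕ) (hL : 1 ≤ L) (hZ : ∀ z ∈ Z, z ≠ 0)
    (h : ∀ z ∈ Z, ∀ w ∈ Z, z ≠ w → Nat.gcd z w ≤ L) (hb : thr L k < b)
    (hg : ∀ z ∈ Z, b ≤ Nat.gcd b z ^ k) : Z.card ≤ k := by
  classical
  by_contra hcon
  push Not at hcon
  obtain ⟨Y, hYZ, hY⟩ := Finset.exists_subset_card_eq (s := Z) (n := k + 1) (by omega)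
  have hL1 : 1 ≤ thr L k := Nat.one_le_pow _ _ (by omega)
  have hb0 : 0 < b := by omega
  have h1 := prod_le_lcm Y (fun z => Nat.gcd b z) L k hL
    (fun z hz => (Nat.gcd_pos_of_pos_left _ hb0).ne') (by omega)
    (fun z hz w hw hne => by
      refine le_trans (Nat.le_of_dvd (Nat.gcd_pos_of_pos_left _ (Nat.pos_of_ne_zero (hZ z (hYZ hz))))
        ?_) (h z (hYZ hz) w (hYZ hw) hne)
      exact Nat.gcd_dvd_gcd_of_dvd_left _ (Nat.gcd_dvd_right b z) |>.trans
        (Nat.gcd_dvd_gcd_of_dvd_right _ (Nat.gcd_dvd_right b w)))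
  have h2 : Y.lcm (fun z => Nat.gcd b z) ≤ b :=
    Nat.le_of_dvd hb0 (Finset.lcm_dvd fun z _ => Nat.gcd_dvd_left b z)
  rw [hY] at h1
  have h3 : ∏ z ∈ Y, Nat.gcd b z ≤ b * (L ^ k) ^ (k + 1) := h1.trans (Nat.mul_le_mul_right _ h2)
  have h4 : b ^ (k + 1) ≤ (∏ z ∈ Y, Nat.gcd b z) ^ k := by
    rw [← Finset.prod_pow]
    calc b ^ (k + 1) = ∏ _z ∈ Y, b := by rw [Finset.prod_const, hY]
      _ ≤ ∏ z ∈ Y, Nat.gcd b z ^ k := Finset.prod_le_prod' fun z hz => hg z (hYZ hz)
  have h5 : b ^ (k + 1) ≤ b ^ k * thr L k := by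
    refine h4.trans ((Nat.pow_le_pow_left h3 k).trans (le_of_eq ?_))
    unfold thr
    rw [mul_pow, ← pow_mul, ← pow_mul]
    congr 2
    ring
  rw [pow_succ] at h5
  have h6 : b ≤ thr L k := Nat.le_of_mul_le_mul_left h5 (pow_pos hb0 k)
  omega

/-- few elements of a coloured set have a large common divisor with a large number -/
theorem few_large_col {κ : Type} [DecidableEq κ] (A : Finset ℕ) (col : ℕ → κ) (L k b : ℕ)
    (hL : 1 ≤ L) (hA : ∀ z ∈ A, z ≠ 0)
    (h : ∀ z ∈ A, ∀ w ∈ A, z ≠ w → col z = col w → Nat.gcd z w ≤ L) (hb : thr L k < b) :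
    (A.filter fun z => b ≤ Nat.gcd b z ^ k).card ≤ k * (A.image col).card := by
  classical
  have hmaps : ∀ z ∈ A.filter (fun z => b ≤ Nat.gcd b z ^ k), col z ∈ A.image col := fun z hz =>
    Finset.mem_image_of_mem _ (Finset.mem_filter.1 hz).1
  rw [Finset.card_eq_sum_card_fiberwise hmaps, mul_comm]
  refine (Finset.sum_le_card_nsmul _ _ k fun c _ => ?_).trans (le_of_eq (by simp))
  refine few_large _ L k b hL ?_ ?_ hb ?_
  · intro z hz
    rw [Finset.mem_filter, Finset.mem_filter] at hz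
    exact hA z hz.1.1
  · intro z hz w hw hne
    rw [Finset.mem_filter, Finset.mem_filter] at hz hw
    exact h z hz.1.1 w hw.1.1 hne (hz.2.trans hw.2.symm)
  · intro z hz
    rw [Finset.mem_filter, Finset.mem_filter] at hz
    exact hz.1.2

end Pool.Agent.R926.KI
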