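import Pool.Agent.Y385.SPI.Small

set_option autoImplicit false

/-!
# Coincidences of two families up to a small ratio

`G` is a finite family of positive integers `π u` (products of tuples).  The number of pairs of
members of the family whose ratio is `c / b`, summed over a set of reduced fractions with weights, is
bounded by the number of the coincidences in the family.
-/

namespace Pool.Agent.R926.KI

open Finset Pool.Agent.Y385.SPI

/-- the number of pairs in the family with `c π(u) = b π(v)`, `p = (b, c)` -/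
def cnt {ι : Type*} (G : Finset ι) (π : ι → ℕ) (p : ℕ × ℕ) : ℕ :=
  ((G ×ˢ G).filter fun q => p.2 * π q.1 = p.1 * π q.2).card

theorem core' (m : ℕ) (hm : 1 ≤ m) (C : ℝ) (hC : 2 ≤ C)
    (hCm : 4 * (m * (2 * m - 1) * 2 ^ (m - 1)) ≤ C ^ 2) {ι : Type*}
    (G : Finset ι) (π : ι → ℕ) (hG : ∀ u ∈ G, π u ≠ 0) (P : Finset (ℕ × ℕ))
    (hP : ∀ p ∈ P, p.1 ≠ 0 ∧ p.2 ≠ 0 ∧ Nat.Coprime p.1 p.2) (r : ℕ × ℕ → ℝ) (hr : ∀ p, 0 ≤ r p)
    (n : ℕ)
    (hn : ∀ u ∈ G, ∀ p ∈ P, π u * p.1 < n ∧ π u * p.2 < n ∧ p.1 * p.2 < n ∧ p.1 < n ∧ p.2 < n)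
    (hn2 : ∀ p ∈ P, ∀ q ∈ P, p.1 * q.2 < n)
    (Wm : ℝ) (hW : ∀ p ∈ P, Wt C (fr n p) ≤ Wm) :
    (∑ p ∈ P, r p * (cnt G π p : ℝ)) ^ (2 * m) ≤
      (cnt G π (1, 1) : ℝ) ^ (2 * m - 1) *
        ((G.card : ℝ) ^ 2 * (Wm ^ 2 * ∑ p ∈ P, r p ^ 2) ^ m) := by
  classical
  have hm0 : m ≠ 0 := by omega
  rcases P.eq_empty_or_nonempty with rfl | ⟨p₀, hp₀⟩
  · simp only [Finset.sum_empty, zero_pow (by omega : 2 * m ≠ 0)]
    positivity
  rcases G.eq_empty_or_nonempty with rfl | ⟨u₀, hu₀⟩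
  · simp [cnt, zero_pow (by omega : 2 * m ≠ 0)]
  set D : ℕ := 4 * n with hD
  set N : ℝ := ((D + 1 : ℕ) : ℝ) with hN
  have hNpos : 0 < N := by rw [hN]; positivity
  set X : ℝ := ∑ p ∈ P, r p * (cnt G π p : ℝ) with hX
  set S : ℝ := ∑ p ∈ P, r p ^ 2 with hS
  set E : ℝ := (cnt G π (1, 1) : ℝ) with hE
  have hX0 : 0 ≤ X := Finset.sum_nonneg fun p _ => mul_nonneg (hr p) (by positivity)
  have hS0 : 0 ≤ S := Finset.sum_nonneg fun p _ => by positivity
  have hAn : ∀ u ∈ G, π u < n := fun u hu => by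
    have h1 := (hn u hu p₀ hp₀).1
    have h2 := Nat.pos_of_ne_zero (hP p₀ hp₀).1
    calc π u = π u * 1 := (mul_one _).symm
      _ ≤ π u * p₀.1 := Nat.mul_le_mul_left _ h2
      _ < n := h1
  set f : (Fin n → Fin (D + 1)) → ℂ := fun θ => ∑ u ∈ G, chi (rt D) (freq n (π u)) θ with hf
  set g : (Fin n → Fin (D + 1)) → ℂ := fun θ => ∑ p ∈ P, (r p : ℂ) * chi (rt D) (fr n p) θ
    with hg
  have hfrb : ∀ p ∈ P, ∀ i, |fr n p i| ≤ n := by
    intro p hp i
    have h1 := freq_bound n p.1 (hP p hp).1 (hn u₀ hu₀ p hp).2.2.2.1 i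
    have h2 := freq_bound n p.2 (hP p hp).2.1 (hn u₀ hu₀ p hp).2.2.2.2 i
    unfold fr
    rw [Pi.sub_apply, abs_le]
    constructor <;> omega
  -- the main identity
  have hmain : ∑ θ, f θ * (starRingEnd ℂ) (f θ) * (starRingEnd ℂ) (g θ) =
      ((D + 1 : ℕ) : ℂ) ^ n * (X : ℂ) := by
    have h1 : ∀ θ, f θ * (starRingEnd ℂ) (f θ) * (starRingEnd ℂ) (g θ) =
        ∑ p ∈ P, ∑ q ∈ G ×ˢ G, (r p : ℂ) *
          chi (rt D) (freq n (π q.2) + -freq n (π q.1) + -fr n p) θ := by
      intro θ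
      have hg2 : (starRingEnd ℂ) (g θ) = ∑ p ∈ P, (r p : ℂ) * chi (rt D) (-fr n p) θ := by
        rw [hg, map_sum]
        refine Finset.sum_congr rfl fun p _ => ?_
        rw [map_mul, Complex.conj_ofReal, chi_neg]
      have hf2 : (starRingEnd ℂ) (f θ) = ∑ u ∈ G, chi (rt D) (-freq n (π u)) θ := by
        rw [hf, map_sum]
        exact Finset.sum_congr rfl fun x _ => by rw [chi_neg]
      rw [hg2, hf2, hf]
      simp only
      rw [mul_comm (∑ u ∈ G, chi (rt D) (freq n (π u)) θ) _, Finset.sum_mul_sum,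
        ← Finset.sum_product', mul_comm, Finset.sum_mul_sum]
      refine Finset.sum_congr rfl fun p _ => Finset.sum_congr rfl fun q _ => ?_
      rw [chi_add, chi_add]
      ring
    rw [Finset.sum_congr rfl fun θ _ => h1 θ, Finset.sum_comm]
    have h2 : ∀ p ∈ P, ∑ θ, ∑ q ∈ G ×ˢ G,
        (r p : ℂ) * chi (rt D) (freq n (π q.2) + -freq n (π q.1) + -fr n p) θ =
        ((D + 1 : ℕ) : ℂ) ^ n * ((r p : ℂ) * (cnt G π p : ℂ)) := by
      intro p hp
      rw [Finset.sum_comm]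
      have h3 : ∀ q ∈ G ×ˢ G, ∑ θ, (r p : ℂ) *
          chi (rt D) (freq n (π q.2) + -freq n (π q.1) + -fr n p) θ =
          (r p : ℂ) * (if p.2 * π q.1 = p.1 * π q.2 then ((D + 1 : ℕ) : ℂ) ^ n else 0) := by
        intro q hq
        rw [Finset.mem_product] at hq
        have hq1 := hG q.1 hq.1
        have hq2 := hG q.2 hq.2
        rw [← Finset.mul_sum, orth]
        · congr 1
          have hiff : freq n (π q.2) + -freq n (π q.1) + -fr n p = 0 ↔
              p.2 * π q.1 = p.1 * π q.2 := by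
            have e1 : freq n (π q.2) + -freq n (π q.1) + -fr n p =
                freq n (π q.2 * p.1) - freq n (π q.1 * p.2) := by
              rw [freq_mul n _ _ hq2 (hP p hp).1, freq_mul n _ _ hq1 (hP p hp).2.1]
              unfold fr
              abel
            rw [e1, sub_eq_zero]
            constructor
            · intro h
              have := freq_inj n _ _ (mul_ne_zero hq2 (hP p hp).1) (mul_ne_zero hq1 (hP p hp).2.1)
                (hn q.2 hq.2 p hp).1 (hn q.1 hq.1 p hp).2.1 h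
              rw [mul_comm p.2, ← this, mul_comm]
            · intro h
              congr 1
              rw [mul_comm (π q.2), ← h, mul_comm]
          simp only [hiff]
        · intro i
          have b1 := freq_bound n (π q.1) hq1 (hAn q.1 hq.1) i
          have b2 := freq_bound n (π q.2) hq2 (hAn q.2 hq.2) i
          have b3 := abs_le.1 (hfrb p hp i)
          rw [Pi.add_apply, Pi.add_apply, Pi.neg_apply, Pi.neg_apply, abs_le, hD]
          push_cast
          constructor <;> omega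
      rw [Finset.sum_congr rfl h3, ← Finset.mul_sum, ← Finset.sum_filter, Finset.sum_const,
        nsmul_eq_mul]
      unfold cnt
      ring
    rw [Finset.sum_congr rfl h2, ← Finset.mul_sum, hX]
    push_cast
    rfl
  -- upper bound by absolute values
  have hup : N ^ n * X ≤ ∑ θ, ‖f θ‖ ^ 2 * ‖g θ‖ := by
    have h1 : ‖((D + 1 : ℕ) : ℂ) ^ n * (X : ℂ)‖ = N ^ n * X := by
      rw [norm_mul, norm_pow, Complex.norm_natCast, Complex.norm_real, Real.norm_eq_abs,
        abs_of_nonneg hX0]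
    rw [← h1, ← hmain]
    refine (norm_sum_le _ _).trans (le_of_eq ?_)
    refine Finset.sum_congr rfl fun θ _ => ?_
    rw [norm_mul, norm_mul, RCLike.norm_conj, RCLike.norm_conj]
    ring
  -- second moment of f
  have hf2 : ∑ θ, ‖f θ‖ ^ 2 = N ^ n * E := by
    have h1 : ∀ θ, ((‖f θ‖ ^ 2 : ℝ) : ℂ) =
        ∑ q ∈ G ×ˢ G, chi (rt D) (freq n (π q.1) + -freq n (π q.2)) θ := by
      intro θ
      have hf2 : (starRingEnd ℂ) (f θ) = ∑ u ∈ G, chi (rt D) (-freq n (π u)) θ := by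
        rw [hf, map_sum]
        exact Finset.sum_congr rfl fun x _ => by rw [chi_neg]
      have : ((‖f θ‖ ^ 2 : ℝ) : ℂ) = f θ * (starRingEnd ℂ) (f θ) := by
        rw [Complex.mul_conj, Complex.normSq_eq_norm_sq]
      rw [this, hf2, hf]
      simp only
      rw [Finset.sum_mul_sum, ← Finset.sum_product']
      exact Finset.sum_congr rfl fun q _ => by rw [chi_add]
    have h2 : ((∑ θ, ‖f θ‖ ^ 2 : ℝ) : ℂ) = ((N ^ n * E : ℝ) : ℂ) := by
      rw [Complex.ofReal_sum, Finset.sum_congr rfl fun θ _ => h1 θ, Finset.sum_comm]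
      have h3 : ∀ q ∈ G ×ˢ G, ∑ θ, chi (rt D) (freq n (π q.1) + -freq n (π q.2)) θ =
          if (1, 1).2 * π q.1 = (1, 1).1 * π q.2 then ((D + 1 : ℕ) : ℂ) ^ n else 0 := by
        intro q hq
        rw [Finset.mem_product] at hq
        have hq1 := hG q.1 hq.1
        have hq2 := hG q.2 hq.2
        rw [orth]
        · have hiff : freq n (π q.1) + -freq n (π q.2) = 0 ↔
              (1, 1).2 * π q.1 = (1, 1).1 * π q.2 := by
            rw [← sub_eq_add_neg, sub_eq_zero]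
            simp only [one_mul]
            exact ⟨fun h => freq_inj n _ _ hq1 hq2 (hAn _ hq.1) (hAn _ hq.2) h, fun h => by rw [h]⟩
          simp only [hiff]
        · intro i
          have b1 := freq_bound n (π q.1) hq1 (hAn q.1 hq.1) i
          have b2 := freq_bound n (π q.2) hq2 (hAn q.2 hq.2) i
          rw [Pi.add_apply, Pi.neg_apply, abs_le, hD]
          push_cast
          constructor <;> omega
      rw [Finset.sum_congr rfl h3, ← Finset.sum_filter, Finset.sum_const, nsmul_eq_mul, hE, hN]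
      unfold cnt
      push_cast
      ring
    exact_mod_cast h2
  have hE0 : 0 ≤ E := by rw [hE]; positivity
  have hfle : ∀ θ, ‖f θ‖ ^ 2 ≤ (G.card : ℝ) ^ 2 := by
    intro θ
    refine pow_le_pow_left₀ (norm_nonneg _) ?_ 2
    refine (norm_sum_le _ _).trans (le_of_eq ?_)
    rw [Finset.sum_congr rfl fun x _ => chi_norm D (freq n (π x)) θ]
    simp
  -- high moment of g
  have hinj : Set.InjOn (fr n) (P : Set (ℕ × ℕ)) := by
    intro p hp q hq h
    have hp' := hP p hp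
    have hq' := hP q hq
    have h1 : freq n (p.1 * q.2) = freq n (q.1 * p.2) := by
      rw [freq_mul n _ _ hp'.1 hq'.2.1, freq_mul n _ _ hq'.1 hp'.2.1]
      have h2 : freq n p.2 - freq n p.1 = freq n q.2 - freq n q.1 := h
      rw [sub_eq_sub_iff_add_eq_add] at h2
      rw [add_comm, add_comm (freq n q.1), h2]
    have h2 := freq_inj n _ _ (mul_ne_zero hp'.1 hq'.2.1) (mul_ne_zero hq'.1 hp'.2.1)
      (hn2 p hp q hq) (hn2 q hq p hp) h1
    have d1 : p.1 ∣ q.1 := hp'.2.2.dvd_of_dvd_mul_right ⟨q.2, h2.symm⟩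
    have d2 : q.1 ∣ p.1 := hq'.2.2.dvd_of_dvd_mul_right ⟨p.2, h2⟩
    have e1 : p.1 = q.1 := Nat.dvd_antisymm d1 d2
    have e2 : p.2 = q.2 := by
      rw [e1] at h2
      exact (Nat.eq_of_mul_eq_mul_left (Nat.pos_of_ne_zero hq'.1) h2).symm
    exact Prod.ext e1 e2
  have hgm : ∑ θ, (‖g θ‖ ^ 2) ^ m ≤ N ^ n * (Wm ^ 2 * S) ^ m := by
    set a : (Fin n → ℤ) → ℂ := fun v => ∑ p ∈ P.filter (fun p => fr n p = v), (r p : ℂ) with ha
    have ha1 : ∀ p ∈ P, a (fr n p) = (r p : ℂ) := by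
      intro p hp
      rw [ha]
      have : P.filter (fun q => fr n q = fr n p) = {p} := by
        ext q
        rw [Finset.mem_filter, Finset.mem_singleton]
        exact ⟨fun h => hinj h.1 hp h.2, fun h => by rw [h]; exact ⟨hp, rfl⟩⟩
      simp only [this, Finset.sum_singleton]
    have ht := tens (rt D) D (rt_norm D) (rt_sum D) m hm C hC hCm n (P.image (fr n)) a (by
      intro v hv i
      obtain ⟨p, hp, rfl⟩ := Finset.mem_image.1 hv
      have := hfrb p hp i
      rw [hD]; push_cast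
      omega)
    rw [Fintype.card_fin] at ht
    have h1 : ∀ θ, ∑ v ∈ P.image (fr n), a v * chi (rt D) v θ = g θ := by
      intro θ
      rw [Finset.sum_image hinj, hg]
      exact Finset.sum_congr rfl fun p hp => by rw [ha1 p hp]
    have h2 : ∑ v ∈ P.image (fr n), Wt C v ^ 2 * ‖a v‖ ^ 2 ≤ Wm ^ 2 * S := by
      rw [Finset.sum_image hinj, hS, Finset.mul_sum]
      refine Finset.sum_le_sum fun p hp => ?_
      rw [ha1 p hp, Complex.norm_real, Real.norm_eq_abs, sq_abs]
      refine mul_le_mul_of_nonneg_right ?_ (by positivity)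
      refine pow_le_pow_left₀ ?_ (hW p hp) 2
      unfold Wt wt
      refine Finset.prod_nonneg fun i _ => ?_
      split_ifs
      · norm_num
      · positivity
    rw [Finset.sum_congr rfl fun θ _ => by rw [h1 θ]] at ht
    refine ht.trans ?_
    rw [hN]
    refine mul_le_mul_of_nonneg_left ?_ (by positivity)
    refine pow_le_pow_left₀ (Finset.sum_nonneg fun v _ => by positivity) h2 m
  -- conclusion
  have hj := wjensen (fun θ => ‖f θ‖ ^ 2) (fun θ => ‖g θ‖) (fun θ => by positivity)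
    (fun θ => norm_nonneg _) (2 * m) (by omega)
  have hj2 : ∑ θ, ‖f θ‖ ^ 2 * ‖g θ‖ ^ (2 * m) ≤ (G.card : ℝ) ^ 2 * (N ^ n * (Wm ^ 2 * S) ^ m) := by
    calc ∑ θ, ‖f θ‖ ^ 2 * ‖g θ‖ ^ (2 * m) ≤ ∑ θ, (G.card : ℝ) ^ 2 * (‖g θ‖ ^ 2) ^ m := by
          refine Finset.sum_le_sum fun θ _ => ?_
          rw [pow_mul]
          exact mul_le_mul_of_nonneg_right (hfle θ) (by positivity)
      _ = (G.card : ℝ) ^ 2 * ∑ θ, (‖g θ‖ ^ 2) ^ m := by rw [Finset.mul_sum]
      _ ≤ _ := mul_le_mul_of_nonneg_left hgm (by positivity)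
  have h3 : (N ^ n * X) ^ (2 * m) ≤ (N ^ n * E) ^ (2 * m - 1) *
      ((G.card : ℝ) ^ 2 * (N ^ n * (Wm ^ 2 * S) ^ m)) := by
    refine (pow_le_pow_left₀ (by positivity) hup _).trans (hj.trans ?_)
    simp only [hf2]
    exact mul_le_mul_of_nonneg_left hj2 (by positivity)
  have hNn : 0 < (N ^ n) ^ (2 * m) := by positivity
  have h4 : (N ^ n * E) ^ (2 * m - 1) * ((G.card : ℝ) ^ 2 * (N ^ n * (Wm ^ 2 * S) ^ m)) =
      (N ^ n) ^ (2 * m) * (E ^ (2 * m - 1) * ((G.card : ℝ) ^ 2 * (Wm ^ 2 * S) ^ m)) := by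
    have e1 : (N ^ n) ^ (2 * m) = (N ^ n) ^ (2 * m - 1) * N ^ n := by
      rw [← pow_succ]; congr 1; omega
    rw [e1, mul_pow]
    ring
  rw [h4, mul_pow] at h3
  exact le_of_mul_le_mul_left h3 hNn

end Pool.Agent.R926.KI
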