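import Pool.Agent.R926.KI.Good

set_option autoImplicit false

/-!
# The number of good tuples, and the number of their products
-/

namespace Pool.Agent.R926.KI

open Finset Pool.Agent.Y385.SPI

/-- tuples with two prescribed entries in a set of pairs -/
theorem tuples_pair (A : Finset ℕ) (R : Finset (ℕ × ℕ)) (l : ℕ) (i j : Fin l) (hij : i ≠ j) :
    ((Fintype.piFinset fun _ : Fin l => A).filter fun t => (t i, t j) ∈ R).card ≤
      R.card * A.card ^ (l - 2) := by
  classical
  have hc : Fintype.card {c : Fin l // c ≠ i ∧ c ≠ j} = l - 2 := by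
    rw [Fintype.card_subtype]
    have : (Finset.univ.filter fun c : Fin l => c ≠ i ∧ c ≠ j) =
        (Finset.univ.erase i).erase j := by
      ext c
      simp only [Finset.mem_filter, Finset.mem_univ, true_and, Finset.mem_erase]
      tauto
    rw [this, Finset.card_erase_of_mem (Finset.mem_erase.2 ⟨hij.symm, Finset.mem_univ _⟩),
      Finset.card_erase_of_mem (Finset.mem_univ _), Finset.card_univ, Fintype.card_fin]
    omega
  have h1 : (R ×ˢ Fintype.piFinset fun _ : {c : Fin l // c ≠ i ∧ c ≠ j} => A).card =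
      R.card * A.card ^ (l - 2) := by
    rw [Finset.card_product, Fintype.card_piFinset, Finset.prod_const, Finset.card_univ, hc]
  rw [← h1]
  refine Finset.card_le_card_of_injOn
    (fun t => ((t i, t j), fun c : {c : Fin l // c ≠ i ∧ c ≠ j} => t c.1)) ?_ ?_
  · intro t ht
    rw [Finset.mem_coe, Finset.mem_filter, Fintype.mem_piFinset] at ht
    rw [Finset.mem_coe, Finset.mem_product, Fintype.mem_piFinset]
    exact ⟨ht.2, fun c => ht.1 _⟩
  · intro t _ t' _ h
    have h1 := Prod.ext_iff.1 h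
    have h2 := Prod.ext_iff.1 h1.1
    funext c
    by_cases hci : c = i
    · rw [hci]; exact h2.1
    by_cases hcj : c = j
    · rw [hcj]; exact h2.2
    exact congrFun h1.2 ⟨c, hci, hcj⟩

open Classical in
/-- the bad pairs -/
noncomputable def BS (A : Finset ℕ) (k H : ℕ) : Finset (ℕ × ℕ) :=
  (A ×ˢ A).filter fun q => Bad A k H q.1 q.2

theorem BS_card {κ : Type} [DecidableEq κ] (A : Finset ℕ) (col : ℕ → κ) (L k : ℕ)
    (hL : 1 ≤ L) (hA : ∀ z ∈ A, z ≠ 0)
    (h : ∀ z ∈ A, ∀ w ∈ A, z ≠ w → col z = col w → Nat.gcd z w ≤ L) :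
    (BS A k (thr L k)).card ≤ A.card * (k * (A.image col).card) ^ 2 := by
  classical
  set Kc := (A.image col).card with hKc
  set F := fun x => (A.filter fun y => thr L k < x / Nat.gcd x y ∧ x ≤ Nat.gcd x y ^ k) with hF
  set F2 := fun x y : ℕ => (A.filter fun y' => x / Nat.gcd x y ≤
    Nat.gcd (x / Nat.gcd x y) y' ^ k) with hF2
  have hsub : BS A k (thr L k) ⊆ A.biUnion fun x => (F x).biUnion fun y =>
      (F2 x y).image fun y' => (y, y') := by
    intro q hq
    unfold BS at hq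
    rw [Finset.mem_filter, Finset.mem_product] at hq
    obtain ⟨⟨hq1, hq2⟩, x, hx, h1, h2, h3⟩ := hq
    rw [Finset.mem_biUnion]
    refine ⟨x, hx, ?_⟩
    rw [Finset.mem_biUnion]
    refine ⟨q.1, Finset.mem_filter.2 ⟨hq1, h1, h2⟩, ?_⟩
    rw [Finset.mem_image]
    exact ⟨q.2, Finset.mem_filter.2 ⟨hq2, h3⟩, rfl⟩
  refine (Finset.card_le_card hsub).trans (Finset.card_biUnion_le.trans ?_)
  refine (Finset.sum_le_card_nsmul _ _ ((k * Kc) ^ 2) fun x hx => ?_).trans
    (le_of_eq (by rw [smul_eq_mul]))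
  refine Finset.card_biUnion_le.trans ?_
  have hFx : (F x).card ≤ k * Kc := by
    rcases (F x).eq_empty_or_nonempty with h0 | ⟨y, hy⟩
    · rw [h0]; simp
    · rw [hF, Finset.mem_filter] at hy
      have hxb : thr L k < x := lt_of_lt_of_le hy.2.1 (Nat.div_le_self _ _)
      refine le_trans (Finset.card_le_card ?_) (few_large_col A col L k x hL hA h hxb)
      intro z hz
      rw [hF, Finset.mem_filter] at hz
      exact Finset.mem_filter.2 ⟨hz.1, hz.2.2⟩
  refine (Finset.sum_le_card_nsmul _ _ (k * Kc) fun y hy => ?_).trans ?_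
  · refine Finset.card_image_le.trans ?_
    rw [hF, Finset.mem_filter] at hy
    exact few_large_col A col L k _ hL hA h hy.2.1
  · rw [smul_eq_mul, sq]
    exact Nat.mul_le_mul_right _ hFx

theorem good_count {κ : Type} [DecidableEq κ] (A : Finset ℕ) (col : ℕ → κ) (L k : ℕ)
    (hL : 1 ≤ L) (hA : ∀ z ∈ A, z ≠ 0)
    (h : ∀ z ∈ A, ∀ w ∈ A, z ≠ w → col z = col w → Nat.gcd z w ≤ L)
    (hk : 2 * k ^ 4 * (A.image col).card ^ 2 ≤ A.card) :
    A.card ^ k ≤ 2 * (GT A k (thr L k) k).card := by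
  classical
  set a := A.card with ha
  have hsub : (Fintype.piFinset fun _ : Fin k => A) ⊆ GT A k (thr L k) k ∪
      (Finset.univ.filter fun ij : Fin k × Fin k => ij.1 ≠ ij.2).biUnion fun ij =>
        (Fintype.piFinset fun _ : Fin k => A).filter fun t => (t ij.1, t ij.2) ∈ BS A k (thr L k) := by
    intro t ht
    rw [Finset.mem_union]
    by_cases hg : t ∈ GT A k (thr L k) k
    · exact Or.inl hg
    right
    rw [mem_GT] at hg
    push Not at hg
    have ht' := Fintype.mem_piFinset.1 ht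
    obtain ⟨i, j, hij, hb⟩ := hg ht'
    rw [Finset.mem_biUnion]
    refine ⟨(i, j), Finset.mem_filter.2 ⟨Finset.mem_univ _, hij⟩, ?_⟩
    rw [Finset.mem_filter]
    refine ⟨ht, ?_⟩
    unfold BS
    rw [Finset.mem_filter, Finset.mem_product]
    exact ⟨⟨ht' i, ht' j⟩, hb⟩
  have h1 := Finset.card_le_card hsub
  rw [Fintype.card_piFinset_const, ← ha] at h1
  have h2 : ((Finset.univ.filter fun ij : Fin k × Fin k => ij.1 ≠ ij.2).biUnion fun ij =>
        (Fintype.piFinset fun _ : Fin k => A).filter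
          fun t => (t ij.1, t ij.2) ∈ BS A k (thr L k)).card ≤
      k ^ 2 * (a * (k * (A.image col).card) ^ 2 * a ^ (k - 2)) := by
    refine Finset.card_biUnion_le.trans ?_
    refine (Finset.sum_le_card_nsmul _ _ (a * (k * (A.image col).card) ^ 2 * a ^ (k - 2))
      fun ij hij => ?_).trans ?_
    · refine (tuples_pair A _ k ij.1 ij.2 (Finset.mem_filter.1 hij).2).trans ?_
      exact Nat.mul_le_mul_right _ (BS_card A col L k hL hA h)
    · rw [smul_eq_mul]
      refine Nat.mul_le_mul_right _ ?_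
      refine (Finset.card_filter_le _ _).trans (le_of_eq ?_)
      rw [Finset.card_univ, Fintype.card_prod, Fintype.card_fin, sq]
  have h3 := h1.trans (Finset.card_union_le _ _)
  rcases Nat.lt_or_ge k 2 with hk2 | hk2
  · have h4 : (Finset.univ.filter fun ij : Fin k × Fin k => ij.1 ≠ ij.2) = ∅ := by
      rw [Finset.filter_eq_empty_iff]
      intro ij _
      rw [not_not]
      have : Subsingleton (Fin k) := by
        interval_cases k
        · infer_instance
        · infer_instance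
      exact Subsingleton.elim _ _
    rw [h4, Finset.biUnion_empty, Finset.card_empty] at h3
    omega
  · have h5 : 2 * (k ^ 2 * (a * (k * (A.image col).card) ^ 2 * a ^ (k - 2))) ≤ a ^ k := by
      calc 2 * (k ^ 2 * (a * (k * (A.image col).card) ^ 2 * a ^ (k - 2)))
          = (2 * k ^ 4 * (A.image col).card ^ 2) * (a * a ^ (k - 2)) := by ring
        _ ≤ a * (a * a ^ (k - 2)) := Nat.mul_le_mul_right _ hk
        _ = a ^ (k - 2 + 1 + 1) := by rw [pow_succ, pow_succ]; ring
        _ = a ^ k := by congr 1; omega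
    omega

/-- Cauchy and Schwarz -/
theorem card_sq_le {ι : Type*} (G : Finset ι) (π : ι → ℕ) :
    G.card ^ 2 ≤ (G.image π).card * cnt G π (1, 1) := by
  classical
  have h1 : G.card = ∑ b ∈ G.image π, (G.filter fun u => π u = b).card :=
    Finset.card_eq_sum_card_fiberwise fun u hu => Finset.mem_image_of_mem _ hu
  have h2 : cnt G π (1, 1) = ∑ b ∈ G.image π, (G.filter fun u => π u = b).card ^ 2 := by
    unfold cnt
    simp only [one_mul]
    rw [Finset.card_eq_sum_card_fiberwise (s := (G ×ˢ G).filter fun q => π q.1 = π q.2)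
      (t := G.image π) (f := fun q => π q.1) fun q hq =>
        Finset.mem_image_of_mem _ (Finset.mem_product.1 (Finset.mem_filter.1 hq).1).1]
    refine Finset.sum_congr rfl fun b _ => ?_
    rw [sq, ← Finset.card_product]
    congr 1
    ext q
    simp only [Finset.mem_filter, Finset.mem_product]
    constructor
    · rintro ⟨⟨⟨h1, h2⟩, h3⟩, h4⟩
      exact ⟨⟨h1, h4⟩, ⟨h2, h3 ▸ h4⟩⟩
    · rintro ⟨⟨h1, h2⟩, ⟨h3, h4⟩⟩
      exact ⟨⟨⟨h1, h3⟩, h2.trans h4.symm⟩, h2⟩
  rw [h2]
  nth_rewrite 1 [h1]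
  exact sq_sum_le_card_mul_sum_sq

/-- the `k`-fold product set -/
def PS (A : Finset ℕ) (k : ℕ) : Finset ℕ := (Fintype.piFinset fun _ : Fin k => A).image pr

theorem nat_main (k : ℕ) (ε : ℝ) (hε : 0 < ε) : ∃ c : ℝ, 0 < c ∧ c ≤ 1 ∧ ∀ (κ : Type)
    (_ : DecidableEq κ) (A : Finset ℕ) (L : ℕ) (col : ℕ → κ), 1 ≤ L → (∀ x ∈ A, x ≠ 0) →
    A.Nonempty → (∀ z ∈ A, ∀ w ∈ A, z ≠ w → col z = col w → Nat.gcd z w ≤ L) →
    2 * k ^ 4 * (A.image col).card ^ 2 ≤ A.card →
    c * ((L : ℝ) * A.card) ^ (-ε) * (A.card : ℝ) ^ k ≤ ((PS A k).card : ℝ) := by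
  classical
  set q : ℕ := (k + 1) * (k ^ 2 * (k + 1) + 1) with hq
  have hq0 : (0 : ℝ) < q := by rw [hq]; positivity
  obtain ⟨K, hK, hE⟩ := energy_bound k (ε / q) (by positivity)
  have hK0 : 0 < K := by linarith
  have hKk : 1 ≤ 4 * K ^ k := by
    have := one_le_pow₀ (n := k) hK
    linarith
  refine ⟨1 / (4 * K ^ k), by positivity, (div_le_one (by linarith)).2 hKk, ?_⟩
  intro κ _ A L col hL hA hAne hcol hk
  have hA1 : (1 : ℝ) ≤ A.card := by exact_mod_cast hAne.card_pos
  have hL1 : (1 : ℝ) ≤ L := by exact_mod_cast hL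
  have hH : 1 ≤ thr L k := Nat.one_le_pow _ _ (by omega)
  set H := thr L k with hHdef
  have h1 := good_count A col L k hL hA hcol hk
  have h2 := card_sq_le (GT A k H k) pr
  have h3 : ((GT A k H k).image pr).card ≤ (PS A k).card := by
    refine Finset.card_le_card (Finset.image_subset_image ?_)
    intro t ht
    exact Fintype.mem_piFinset.2 (mem_GT.1 ht).1
  have h4 := hE H hH A hA hAne k le_rfl
  set a : ℝ := (A.card : ℝ) with ha
  set P : ℝ := ((PS A k).card : ℝ) with hP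
  have h5 : a ^ k ≤ 2 * ((GT A k H k).card : ℝ) := by
    have := (Nat.cast_le (α := ℝ)).2 h1
    push_cast at this
    exact this
  have h6 : ((GT A k H k).card : ℝ) ^ 2 ≤ P * (K * ((H : ℝ) * a) ^ (ε / q) * a) ^ k := by
    have h7 : ((GT A k H k).card : ℝ) ^ 2 ≤
        (((GT A k H k).image pr).card : ℝ) * (cnt (GT A k H k) pr (1, 1) : ℝ) := by
      exact_mod_cast h2
    refine h7.trans (mul_le_mul ?_ h4 (by positivity) (by positivity))
    exact (Nat.cast_le (α := ℝ)).2 h3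
  have hHa1 : 1 ≤ (L : ℝ) * a := one_le_mul_of_one_le_of_one_le hL1 hA1
  have h8 : (((H : ℝ) * a) ^ (ε / q)) ^ k ≤ ((L : ℝ) * a) ^ ε := by
    have e1 : (H : ℝ) * a ≤ ((L : ℝ) * a) ^ (k ^ 2 * (k + 1) + 1) := by
      rw [hHdef, thr, mul_pow, pow_succ (L : ℝ), pow_succ a]
      push_cast
      have b1 : (1 : ℝ) ≤ a ^ (k ^ 2 * (k + 1)) := one_le_pow₀ hA1
      have b2 : (0 : ℝ) < (L : ℝ) ^ (k ^ 2 * (k + 1)) := by positivity
      calc (L : ℝ) ^ (k ^ 2 * (k + 1)) * a = ((L : ℝ) ^ (k ^ 2 * (k + 1)) * 1) * (1 * a) := by ring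
        _ ≤ ((L : ℝ) ^ (k ^ 2 * (k + 1)) * L) * (a ^ (k ^ 2 * (k + 1)) * a) := by
            refine mul_le_mul ?_ ?_ (by positivity) (by positivity)
            · exact mul_le_mul_of_nonneg_left hL1 b2.le
            · exact mul_le_mul_of_nonneg_right b1 (by positivity)
    calc (((H : ℝ) * a) ^ (ε / q)) ^ k
        ≤ ((((L : ℝ) * a) ^ (k ^ 2 * (k + 1) + 1)) ^ (ε / q)) ^ k := by
          refine pow_le_pow_left₀ (by positivity) ?_ k
          exact Real.rpow_le_rpow (by positivity) e1 (by positivity)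
      _ = ((L : ℝ) * a) ^ (((k ^ 2 * (k + 1) + 1 : ℕ) : ℝ) * (ε / q) * (k : ℝ)) := by
          rw [← Real.rpow_natCast ((L : ℝ) * a), ← Real.rpow_mul (by positivity),
            ← Real.rpow_natCast _ k, ← Real.rpow_mul (by positivity)]
      _ ≤ ((L : ℝ) * a) ^ ε := by
          refine Real.rpow_le_rpow_of_exponent_le hHa1 ?_
          have e3 : ((k ^ 2 * (k + 1) + 1 : ℕ) : ℝ) * (ε / q) * (k : ℝ) =
              ε * (((k ^ 2 * (k + 1) + 1 : ℕ) : ℝ) * k / q) := by ring
          rw [e3]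
          have e4 : ((k ^ 2 * (k + 1) + 1 : ℕ) : ℝ) * k / q ≤ 1 := by
            rw [div_le_one hq0, hq]
            have : ((k ^ 2 * (k + 1) + 1) * k : ℕ) ≤ (k + 1) * (k ^ 2 * (k + 1) + 1) := by
              rw [mul_comm]
              exact Nat.mul_le_mul_right _ (by omega)
            exact_mod_cast this
          nlinarith
  -- conclusion
  have hLa : 0 < ((L : ℝ) * a) ^ ε := Real.rpow_pos_of_pos (by linarith) _
  have hak : 0 < a ^ k := by positivity
  have h9 : (a ^ k) ^ 2 ≤ 4 * (P * (K ^ k * ((L : ℝ) * a) ^ ε * a ^ k)) := by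
    calc (a ^ k) ^ 2 ≤ (2 * ((GT A k H k).card : ℝ)) ^ 2 := pow_le_pow_left₀ hak.le h5 2
      _ = 4 * ((GT A k H k).card : ℝ) ^ 2 := by ring
      _ ≤ 4 * (P * (K * ((H : ℝ) * a) ^ (ε / q) * a) ^ k) := by linarith
      _ = 4 * (P * (K ^ k * (((H : ℝ) * a) ^ (ε / q)) ^ k * a ^ k)) := by
          rw [mul_pow, mul_pow]
      _ ≤ _ := by
          have hP0 : 0 ≤ P := by rw [hP]; positivity
          gcongr
  rw [Real.rpow_neg (by linarith)]
  have h10 : 1 / (4 * K ^ k) * (((L : ℝ) * a) ^ ε)⁻¹ * a ^ k =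
      a ^ k / (4 * K ^ k * ((L : ℝ) * a) ^ ε) := by
    field_simp
  rw [h10, div_le_iff₀ (by positivity)]
  have h11 : a ^ k * a ^ k ≤ (P * (4 * K ^ k * ((L : ℝ) * a) ^ ε)) * a ^ k := by
    calc a ^ k * a ^ k = (a ^ k) ^ 2 := by ring
      _ ≤ 4 * (P * (K ^ k * ((L : ℝ) * a) ^ ε * a ^ k)) := h9
      _ = _ := by ring
  exact le_of_mul_le_mul_right h11 hak

end Pool.Agent.R926.KI
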