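import Pool.Agent.R926.KI.Count

set_option autoImplicit false

/-!
# Many colours; progressions
-/

namespace Pool.Agent.R926.KI

open Finset

/-- the largest classes -/
theorem top_classes {κ : Type*} (S : Finset κ) (f : κ → ℕ) (t : ℕ) (ht : t ≤ S.card) :
    ∃ S' ⊆ S, S'.card = S.card - t ∧
      (S.card - t) * ∑ a ∈ S, f a ≤ S.card * ∑ a ∈ S', f a := by
  classical
  induction t with
  | zero => exact ⟨S, Finset.Subset.refl S, by simp, by simp⟩
  | succ t ih =>
    obtain ⟨S', hS', hc, hs⟩ := ih (by omega)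
    have hne : S'.Nonempty := Finset.card_pos.1 (by omega)
    obtain ⟨a, ha, hmin⟩ := Finset.exists_min_image S' f hne
    refine ⟨S'.erase a, (Finset.erase_subset _ _).trans hS', ?_, ?_⟩
    · rw [Finset.card_erase_of_mem ha, hc]; omega
    · obtain ⟨m, hm⟩ : ∃ m, S.card - t = m + 1 := ⟨S.card - t - 1, by omega⟩
      have hm2 : S.card - (t + 1) = m := by omega
      rw [hm2]
      rw [hm] at hs hc
      have h1 : S'.card * f a ≤ ∑ b ∈ S', f b := by
        have := Finset.card_nsmul_le_sum S' f (f a) hmin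
        rwa [smul_eq_mul] at this
      rw [hc] at h1
      have h2 : f a + ∑ b ∈ S'.erase a, f b = ∑ b ∈ S', f b := Finset.add_sum_erase _ _ ha
      set X := ∑ b ∈ S', f b
      set Y := ∑ b ∈ S'.erase a, f b
      set Z := ∑ b ∈ S, f b
      have h3 : m * X ≤ (m + 1) * Y := by nlinarith
      have h4 : (m + 1) * (m * Z) ≤ (m + 1) * (S.card * Y) := by
        calc (m + 1) * (m * Z) = m * ((m + 1) * Z) := by ring
          _ ≤ m * (S.card * X) := Nat.mul_le_mul_left _ hs
          _ = S.card * (m * X) := by ring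
          _ ≤ S.card * ((m + 1) * Y) := Nat.mul_le_mul_left _ h3
          _ = _ := by ring
      exact Nat.le_of_mul_le_mul_left h4 (by omega)

theorem PS_mono {A B : Finset ℕ} (h : A ⊆ B) (k : ℕ) : (PS A k).card ≤ (PS B k).card := by
  classical
  refine Finset.card_le_card (Finset.image_subset_image ?_)
  intro t ht
  rw [Fintype.mem_piFinset] at *
  exact fun i => h (ht i)

theorem PS_pos {A : Finset ℕ} (h : A.Nonempty) (k : ℕ) : 1 ≤ (PS A k).card := by
  obtain ⟨a, ha⟩ := h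
  refine Finset.card_pos.2 ⟨pr (fun _ : Fin k => a), Finset.mem_image_of_mem _ ?_⟩
  exact Fintype.mem_piFinset.2 fun _ => ha

theorem nat_gen (k : ℕ) (ε : ℝ) (hε : 0 < ε) : ∃ c : ℝ, 0 < c ∧ c ≤ 1 ∧ ∀ (κ : Type)
    (_ : DecidableEq κ) (A : Finset ℕ) (L : ℕ) (col : ℕ → κ), 1 ≤ L → (∀ x ∈ A, x ≠ 0) →
    A.Nonempty → (∀ z ∈ A, ∀ w ∈ A, z ≠ w → col z = col w → Nat.gcd z w ≤ L) →
    c * ((L : ℝ) * A.card) ^ (-ε) *
      min ((A.card : ℝ) ^ k) (((A.card : ℝ) / (A.image col).card) ^ (2 * k)) ≤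
      ((PS A k).card : ℝ) := by
  classical
  obtain ⟨c1, hc1, hc11, hmain⟩ := nat_main k ε hε
  set M : ℕ := 2 * k ^ 4 with hM
  set Mr : ℝ := 1 + 2 * (M : ℝ) with hMr
  have hMr1 : 1 ≤ Mr := by
    have : (0 : ℝ) ≤ M := Nat.cast_nonneg M
    rw [hMr]; linarith
  have hMp : 1 ≤ Mr ^ (2 * k) := one_le_pow₀ hMr1
  refine ⟨c1 / Mr ^ (2 * k), by positivity, ?_, ?_⟩
  · rw [div_le_one (by positivity)]; linarith
  intro κ _ A L col hL hA hAne hcol
  set a : ℝ := (A.card : ℝ) with ha
  set Kc : ℕ := (A.image col).card with hKc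
  have hA1 : (1 : ℝ) ≤ a := by rw [ha]; exact_mod_cast hAne.card_pos
  have hL1 : (1 : ℝ) ≤ L := by exact_mod_cast hL
  have hK1 : 1 ≤ Kc := Finset.card_pos.2 (hAne.image col)
  have hK1r : (1 : ℝ) ≤ Kc := by exact_mod_cast hK1
  have hLa : 1 ≤ (L : ℝ) * a := one_le_mul_of_one_le_of_one_le hL1 hA1
  have hpow : ((L : ℝ) * a) ^ (-ε) ≤ 1 :=
    Real.rpow_le_one_of_one_le_of_nonpos hLa (by linarith)
  have hpow0 : 0 < ((L : ℝ) * a) ^ (-ε) := Real.rpow_pos_of_pos (by linarith) _
  have hcle : c1 / Mr ^ (2 * k) ≤ c1 := div_le_self hc1.le hMp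
  have hc0 : 0 ≤ c1 / Mr ^ (2 * k) := by positivity
  by_cases hcase : M * Kc ^ 2 ≤ A.card
  · have h1 := hmain κ inferInstance A L col hL hA hAne hcol hcase
    refine le_trans ?_ h1
    refine mul_le_mul (mul_le_mul_of_nonneg_right hcle hpow0.le) (min_le_left _ _)
      (le_min (by positivity) (by positivity)) (by positivity)
  push Not at hcase
  have hMpos : 0 < M := by
    rcases Nat.eq_zero_or_pos M with h | h
    · rw [h] at hcase; omega
    · exact h
  have hMr0 : (0 : ℝ) < M := by exact_mod_cast hMpos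
  set s : ℕ := A.card / (M * Kc) with hs
  have hsK : s < Kc := by
    rw [hs]
    refine Nat.div_lt_of_lt_mul ?_
    calc A.card < M * Kc ^ 2 := hcase
      _ = M * Kc * Kc := by ring
  rcases Nat.eq_zero_or_pos s with hs0 | hs0
  · -- few elements per colour
    have h1 : A.card < M * Kc := by
      rw [hs, Nat.div_eq_zero_iff] at hs0
      rcases hs0 with h | h
      · exact absurd h (by positivity)
      · exact h
    have h2 : a / Kc ≤ Mr := by
      rw [div_le_iff₀ (by linarith)]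
      have : a ≤ (M : ℝ) * Kc := by rw [ha]; exact_mod_cast h1.le
      have h3 : (0 : ℝ) ≤ (M : ℝ) * Kc := by positivity
      rw [hMr]
      nlinarith
    have h3 : (a / Kc) ^ (2 * k) ≤ Mr ^ (2 * k) := pow_le_pow_left₀ (by positivity) h2 _
    have h4 : (1 : ℝ) ≤ ((PS A k).card : ℝ) := by exact_mod_cast PS_pos hAne k
    calc c1 / Mr ^ (2 * k) * ((L : ℝ) * a) ^ (-ε) * min (a ^ k) ((a / Kc) ^ (2 * k))
        ≤ c1 / Mr ^ (2 * k) * 1 * Mr ^ (2 * k) := by
          refine mul_le_mul (mul_le_mul_of_nonneg_left hpow hc0) ((min_le_right _ _).trans h3)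
            (le_min (by positivity) (by positivity)) (by positivity)
      _ = c1 := by field_simp
      _ ≤ _ := by linarith
  -- take the largest classes
  obtain ⟨S', hS', hS'c, hS's⟩ := top_classes (A.image col)
    (fun b => (A.filter fun x => col x = b).card) (Kc - s) (by rw [← hKc]; omega)
  rw [← hKc] at hS'c hS's
  have hKs : Kc - (Kc - s) = s := by omega
  rw [hKs] at hS'c hS's
  have hsumA : ∑ b ∈ A.image col, (A.filter fun x => col x = b).card = A.card :=
    (Finset.card_eq_sum_card_fiberwise fun u hu => Finset.mem_image_of_mem _ hu).symm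
  set A' := A.filter fun x => col x ∈ S' with hA'
  have hsumA' : ∑ b ∈ S', (A.filter fun x => col x = b).card = A'.card := by
    rw [Finset.card_eq_sum_card_fiberwise (s := A') (t := S') (f := col)
      fun u hu => (Finset.mem_filter.1 hu).2]
    refine Finset.sum_congr rfl fun b hb => ?_
    congr 1
    ext x
    simp only [hA', Finset.mem_filter]
    constructor
    · rintro ⟨h1, h2⟩; exact ⟨⟨h1, h2 ▸ hb⟩, h2⟩
    · rintro ⟨⟨h1, _⟩, h2⟩; exact ⟨h1, h2⟩
  rw [hsumA, hsumA'] at hS's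
  -- s * |A| ≤ K * |A'|
  have hA'A : A' ⊆ A := Finset.filter_subset _ _
  have hcolA' : (A'.image col).card ≤ s := by
    rw [← hS'c]
    refine Finset.card_le_card ?_
    intro b hb
    obtain ⟨x, hx, rfl⟩ := Finset.mem_image.1 hb
    exact (Finset.mem_filter.1 hx).2
  have hMs : M * Kc * s ≤ A.card := by
    rw [hs]; exact Nat.mul_div_le _ _
  have hsz : M * s ^ 2 ≤ A'.card := by
    have h1 : Kc * (M * s ^ 2) ≤ Kc * A'.card := by
      calc Kc * (M * s ^ 2) = s * (M * Kc * s) := by ring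
        _ ≤ s * A.card := Nat.mul_le_mul_left _ hMs
        _ ≤ Kc * A'.card := hS's
    exact Nat.le_of_mul_le_mul_left h1 (by omega)
  have hA'ne : A'.Nonempty := by
    refine Finset.card_pos.1 ?_
    have : 0 < M * s ^ 2 := by positivity
    omega
  have hcond : 2 * k ^ 4 * (A'.image col).card ^ 2 ≤ A'.card := by
    refine le_trans ?_ hsz
    exact Nat.mul_le_mul_left _ (Nat.pow_le_pow_left hcolA' 2)
  have h1 := hmain κ inferInstance A' L col hL (fun x hx => hA x (hA'A hx)) hA'ne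
    (fun z hz w hw => hcol z (hA'A hz) w (hA'A hw)) hcond
  have h2 : ((PS A' k).card : ℝ) ≤ ((PS A k).card : ℝ) := by exact_mod_cast PS_mono hA'A k
  refine le_trans ?_ (h1.trans h2)
  set a' : ℝ := (A'.card : ℝ) with ha'
  have ha'1 : 1 ≤ a' := by rw [ha']; exact_mod_cast hA'ne.card_pos
  have ha'a : a' ≤ a := by rw [ha', ha]; exact_mod_cast Finset.card_le_card hA'A
  -- the lower bound for a'
  have hlow : (a / Kc) ^ 2 ≤ Mr * a' := by
    have e1 : A.card < M * Kc * (s + 1) := by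
      rw [hs]; exact Nat.lt_mul_div_succ _ (by positivity)
    have e2 : (A.card : ℝ) ≤ (M : ℝ) * Kc * (2 * s) := by
      have : A.card ≤ M * Kc * (2 * s) := by
        refine e1.le.trans (Nat.mul_le_mul_left _ (by omega))
      exact_mod_cast this
    have e3 : (s : ℝ) * A.card ≤ (Kc : ℝ) * A'.card := by exact_mod_cast hS's
    rw [div_pow, div_le_iff₀ (by positivity)]
    rw [← ha] at e2 e3
    rw [← ha'] at e3
    calc a ^ 2 = a * a := by ring
      _ ≤ ((M : ℝ) * Kc * (2 * s)) * a := mul_le_mul_of_nonneg_right e2 (by linarith)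
      _ = 2 * M * Kc * (s * a) := by ring
      _ ≤ 2 * M * Kc * (Kc * a') := mul_le_mul_of_nonneg_left e3 (by positivity)
      _ = (2 * M) * a' * (Kc : ℝ) ^ 2 := by ring
      _ ≤ Mr * a' * (Kc : ℝ) ^ 2 := by
          refine mul_le_mul_of_nonneg_right ?_ (by positivity)
          refine mul_le_mul_of_nonneg_right ?_ (by linarith)
          rw [hMr]; linarith
  have hlowk : (a / Kc) ^ (2 * k) ≤ Mr ^ (2 * k) * a' ^ k := by
    calc (a / Kc) ^ (2 * k) = ((a / Kc) ^ 2) ^ k := by rw [pow_mul]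
      _ ≤ (Mr * a') ^ k := pow_le_pow_left₀ (by positivity) hlow k
      _ = Mr ^ k * a' ^ k := mul_pow _ _ _
      _ ≤ Mr ^ (2 * k) * a' ^ k := by
          refine mul_le_mul_of_nonneg_right ?_ (by positivity)
          exact pow_le_pow_right₀ hMr1 (by omega)
  have hp : ((L : ℝ) * a) ^ (-ε) ≤ ((L : ℝ) * a') ^ (-ε) := by
    refine Real.rpow_le_rpow_of_nonpos (by nlinarith) ?_ (by linarith)
    exact mul_le_mul_of_nonneg_left ha'a (by linarith)
  calc c1 / Mr ^ (2 * k) * ((L : ℝ) * a) ^ (-ε) * min (a ^ k) ((a / Kc) ^ (2 * k))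
      ≤ c1 / Mr ^ (2 * k) * ((L : ℝ) * a') ^ (-ε) * (Mr ^ (2 * k) * a' ^ k) := by
        refine mul_le_mul (mul_le_mul_of_nonneg_left hp hc0) ((min_le_right _ _).trans hlowk)
          (le_min (by positivity) (by positivity)) ?_
        exact mul_nonneg hc0 (Real.rpow_nonneg (by nlinarith) _)
    _ = _ := by field_simp

theorem fin_aux {c N x x' y y' : ℝ} (hN : 0 < N) (hc : 0 ≤ c) (hx : x ≤ x') (hy0 : 0 ≤ y)
    (hy : y ≤ N * y') (hx' : 0 ≤ x') : c / N * x * y ≤ c * x' * y' := by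
  calc c / N * x * y ≤ c / N * x' * (N * y') := by
        refine mul_le_mul (mul_le_mul_of_nonneg_left hx (by positivity)) hy hy0 (by positivity)
    _ = c * x' * y' := by field_simp

theorem pow_aux {n b ε : ℝ} (hε : 0 < ε) (D : ℕ) (hn : 1 ≤ n) (hb : 1 ≤ b) (hbn : b ≤ n) :
    n ^ (-ε) ≤ (n ^ D * b) ^ (-(ε / (D + 1))) := by
  have hn0 : 0 < n := by linarith
  have e1 : n ^ (-ε) = (n ^ (D + 1)) ^ (-(ε / (D + 1))) := by
    rw [← Real.rpow_natCast, ← Real.rpow_mul hn0.le]
    congr 1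
    push_cast
    field_simp
  rw [e1]
  have hnD : (0 : ℝ) < n ^ D := by positivity
  refine Real.rpow_le_rpow_of_nonpos ?_ ?_ ?_
  · exact mul_pos hnD (by linarith)
  · rw [pow_succ]
    exact mul_le_mul_of_nonneg_left hbn hnD.le
  · have : 0 ≤ ε / ((D : ℝ) + 1) := by positivity
    linarith

theorem min_aux {n b K T : ℝ} (k : ℕ) (hnb : n ≤ 3 * b) (hb : 1 ≤ b) (hK : 1 ≤ K) (hKT : K ≤ T)
    (hn : 1 ≤ n) :
    min (n ^ k) ((n / T) ^ (2 * k)) ≤ 9 ^ k * min (b ^ k) ((b / K) ^ (2 * k)) := by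
  rw [mul_min_of_nonneg _ _ (by positivity)]
  refine min_le_min ?_ ?_
  · calc n ^ k ≤ (3 * b) ^ k := pow_le_pow_left₀ (by linarith) hnb k
      _ = 3 ^ k * b ^ k := mul_pow _ _ _
      _ ≤ 9 ^ k * b ^ k := by
          refine mul_le_mul_of_nonneg_right ?_ (by positivity)
          exact pow_le_pow_left₀ (by norm_num) (by norm_num) k
  · calc (n / T) ^ (2 * k) ≤ (3 * (b / K)) ^ (2 * k) := by
          refine pow_le_pow_left₀ (div_nonneg (by linarith) (by linarith)) ?_ _
          rw [← mul_div_assoc]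
          exact div_le_div₀ (by linarith) hnb (by linarith) hKT
      _ = 9 ^ k * (b / K) ^ (2 * k) := by
          rw [mul_pow, pow_mul 3 2 k]; norm_num

/-- the `k`-fold product set of a set of integers -/
def PZ (A : Finset ℤ) (k : ℕ) : Finset ℤ :=
  (Fintype.piFinset fun _ : Fin k => A).image fun t => ∏ i, t i

theorem int_gen (k : ℕ) (ε : ℝ) (hε : 0 < ε) (D : ℕ) : ∃ c : ℝ, 0 < c ∧
    ∀ (A : Finset ℤ) (ι : Type) (T : Finset ι) (u d : ι → ℤ), A.Nonempty →
    (∀ i ∈ T, IsCoprime (u i) (d i)) →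
    (∀ x ∈ A, ∃ i ∈ T, ∃ j : ℕ, j ≤ A.card ^ D ∧ x = u i + j * d i) →
    c * (A.card : ℝ) ^ (-ε) *
      min ((A.card : ℝ) ^ k) (((A.card : ℝ) / T.card) ^ (2 * k)) ≤ ((PZ A k).card : ℝ) := by
  classical
  obtain ⟨c1, hc1, hc11, hgen⟩ := nat_gen k (ε / (D + 1)) (by positivity)
  refine ⟨c1 / 9 ^ k, by positivity, ?_⟩
  intro A ι T u d hAne hcop hcov
  set n := A.card with hn
  have hn1 : 1 ≤ n := hAne.card_pos
  have hn1r : (1 : ℝ) ≤ n := by exact_mod_cast hn1
  have hT1 : 1 ≤ T.card := by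
    obtain ⟨x, hx⟩ := hAne
    obtain ⟨i, hi, _⟩ := hcov x hx
    exact Finset.card_pos.2 ⟨i, hi⟩
  have hT1r : (1 : ℝ) ≤ T.card := by exact_mod_cast hT1
  have hPZ : (1 : ℝ) ≤ ((PZ A k).card : ℝ) := by
    obtain ⟨x, hx⟩ := hAne
    have : 0 < (PZ A k).card := Finset.card_pos.2
      ⟨∏ _i : Fin k, x, Finset.mem_image.2 ⟨fun _ => x, Fintype.mem_piFinset.2 fun _ => hx, rfl⟩⟩
    exact_mod_cast this
  have hnε1 : (n : ℝ) ^ (-ε) ≤ 1 := Real.rpow_le_one_of_one_le_of_nonpos hn1r (by linarith)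
  have hnε0 : 0 < (n : ℝ) ^ (-ε) := Real.rpow_pos_of_pos (by linarith) _
  by_cases hsmall : n ≤ 2
  · have h1 : min ((n : ℝ) ^ k) (((n : ℝ) / T.card) ^ (2 * k)) ≤ 9 ^ k := by
      refine (min_le_left _ _).trans (pow_le_pow_left₀ (by positivity) ?_ k)
      have : (n : ℝ) ≤ 2 := by exact_mod_cast hsmall
      linarith
    calc c1 / 9 ^ k * (n : ℝ) ^ (-ε) * min ((n : ℝ) ^ k) (((n : ℝ) / T.card) ^ (2 * k))
        ≤ c1 / 9 ^ k * 1 * 9 ^ k := by
          refine mul_le_mul (mul_le_mul_of_nonneg_left hnε1 (by positivity)) h1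
            (le_min (by positivity) (by positivity)) (by positivity)
      _ = c1 := by field_simp
      _ ≤ _ := by linarith
  -- one of the two signs
  have hsgn : ∃ s : ℤ, (s = 1 ∨ s = -1) ∧ n ≤ 3 * (A.filter fun a => 0 < s * a).card := by
    by_contra hcon
    push Not at hcon
    have h1 := hcon 1 (Or.inl rfl)
    have h2 := hcon (-1) (Or.inr rfl)
    have h3 : A ⊆ insert 0 ((A.filter fun a => 0 < 1 * a) ∪ (A.filter fun a => 0 < -1 * a)) := by
      intro a ha
      rcases lt_trichotomy a 0 with h | h | h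
      · exact Finset.mem_insert_of_mem (Finset.mem_union_right _
          (Finset.mem_filter.2 ⟨ha, by omega⟩))
      · rw [h]; exact Finset.mem_insert_self _ _
      · exact Finset.mem_insert_of_mem (Finset.mem_union_left _
          (Finset.mem_filter.2 ⟨ha, by omega⟩))
    have h4 := (Finset.card_le_card h3).trans ((Finset.card_insert_le _ _).trans
      (Nat.add_le_add_right (Finset.card_union_le _ _) 1))
    omega
  obtain ⟨s, hs, hsn⟩ := hsgn
  set A' := A.filter fun a => 0 < s * a with hA'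
  set B := A'.image Int.natAbs with hB
  have hss : s * s = 1 := by rcases hs with rfl | rfl <;> norm_num
  have hback : ∀ a ∈ A', a = s * (Int.natAbs a : ℤ) := by
    intro a ha
    have h1 := (Finset.mem_filter.1 ha).2
    rcases hs with rfl | rfl
    · have : 0 < a := by linarith
      omega
    · have : a < 0 := by linarith
      omega
  have hBcard : B.card = A'.card := by
    refine Finset.card_image_of_injOn ?_
    intro a ha b hb hab
    rw [hback a ha, hback b hb]
    have : Int.natAbs a = Int.natAbs b := hab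
    rw [this]
  have hBA : ∀ b ∈ B, s * (b : ℤ) ∈ A := by
    intro b hb
    obtain ⟨a, ha, rfl⟩ := Finset.mem_image.1 hb
    rw [← hback a ha]
    exact (Finset.mem_filter.1 ha).1
  have hB0 : ∀ b ∈ B, b ≠ 0 := by
    intro b hb h0
    obtain ⟨a, ha, hab⟩ := Finset.mem_image.1 hb
    have h1 := hback a ha
    rw [hab, h0] at h1
    have h2 := (Finset.mem_filter.1 ha).2
    rw [h1] at h2
    simp at h2
  have hBne : B.Nonempty := by
    refine Finset.card_pos.1 ?_
    rw [hBcard]; omega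
  obtain ⟨i₀, hi₀⟩ : T.Nonempty := Finset.card_pos.1 hT1
  -- the colouring
  set col : ℕ → ι := fun b => if h : s * (b : ℤ) ∈ A then (hcov _ h).choose else i₀ with hcol
  have hcolT : ∀ b ∈ B, col b ∈ T ∧ ∃ j : ℕ, j ≤ n ^ D ∧ s * (b : ℤ) = u (col b) + j * d (col b) := by
    intro b hb
    have h := hBA b hb
    have e : col b = (hcov _ h).choose := by rw [hcol]; simp only [dif_pos h]
    have h1 := (hcov _ h).choose_spec
    rw [← e] at h1
    exact h1
  have hgcd : ∀ z ∈ B, ∀ w ∈ B, z ≠ w → col z = col w → Nat.gcd z w ≤ n ^ D := by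
    intro z hz w hw hne hc
    obtain ⟨hzT, j, hj, hzj⟩ := hcolT z hz
    obtain ⟨hwT, j', hj', hwj⟩ := hcolT w hw
    rw [← hc] at hwj
    set i := col z
    have hgz : ((Nat.gcd z w : ℕ) : ℤ) ∣ s * (z : ℤ) :=
      Dvd.dvd.mul_left (Int.natCast_dvd_natCast.2 (Nat.gcd_dvd_left z w)) _
    have hgw : ((Nat.gcd z w : ℕ) : ℤ) ∣ s * (w : ℤ) :=
      Dvd.dvd.mul_left (Int.natCast_dvd_natCast.2 (Nat.gcd_dvd_right z w)) _
    have hdiff : s * (z : ℤ) - s * (w : ℤ) = ((j : ℤ) - j') * d i := by rw [hzj, hwj]; ring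
    have hd1 : ((Nat.gcd z w : ℕ) : ℤ) ∣ ((j : ℤ) - j') * d i := hdiff ▸ dvd_sub hgz hgw
    have hcp : IsCoprime ((Nat.gcd z w : ℕ) : ℤ) (d i) := by
      have h1 : IsCoprime (s * (z : ℤ)) (d i) := by
        rw [hzj]
        exact IsCoprime.add_mul_right_left (hcop i hzT) _
      exact IsCoprime.of_isCoprime_of_dvd_left h1 hgz
    have hd2 : ((Nat.gcd z w : ℕ) : ℤ) ∣ (j : ℤ) - j' := hcp.dvd_of_dvd_mul_right hd1
    have hjj : (j : ℤ) - j' ≠ 0 := by
      intro h0
      rw [h0, zero_mul, sub_eq_zero] at hdiff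
      have h1 : s * (s * (z : ℤ)) = s * (s * (w : ℤ)) := by rw [hdiff]
      rw [← mul_assoc, ← mul_assoc, hss, one_mul, one_mul] at h1
      exact hne (by exact_mod_cast h1)
    have h3 : Nat.gcd z w ≤ ((j : ℤ) - j').natAbs := by
      refine Nat.le_of_dvd (Int.natAbs_pos.2 hjj) ?_
      exact Int.natCast_dvd.1 hd2
    have h4 : ((j : ℤ) - j').natAbs ≤ n ^ D := by
      obtain ⟨N, hN⟩ : ∃ N, N = n ^ D := ⟨_, rfl⟩
      rw [← hN] at hj hj' ⊢
      omega
    exact h3.trans h4
  have h1 := hgen ι inferInstance B (n ^ D) col (Nat.one_le_pow _ _ hn1) hB0 hBne hgcd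
  -- the product sets
  have h2 : ((PS B k).card : ℝ) ≤ ((PZ A k).card : ℝ) := by
    have : (PS B k).card ≤ (PZ A k).card := by
      refine Finset.card_le_card_of_injOn (fun m => s ^ k * (m : ℤ)) ?_ ?_
      · intro m hm
        obtain ⟨t, ht, rfl⟩ := Finset.mem_image.1 hm
        rw [Fintype.mem_piFinset] at ht
        rw [Finset.mem_coe]
        refine Finset.mem_image.2 ⟨fun i => s * (t i : ℤ), ?_, ?_⟩
        · exact Fintype.mem_piFinset.2 fun i => hBA _ (ht i)
        · unfold pr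
          rw [Finset.prod_mul_distrib]
          simp
      · intro m _ m' _ h
        have hs0 : s ^ k ≠ 0 := pow_ne_zero k (by rintro rfl; simp at hss)
        have := mul_left_cancel₀ hs0 h
        exact_mod_cast this
    exact_mod_cast this
  refine le_trans ?_ (h1.trans h2)
  -- numerical comparison
  have hBn : (B.card : ℝ) ≤ n := by
    have : B.card ≤ n := by rw [hBcard]; exact Finset.card_filter_le _ _
    exact_mod_cast this
  have hnB : (n : ℝ) ≤ 3 * B.card := by
    have : n ≤ 3 * B.card := by rw [hBcard]; exact hsn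
    exact_mod_cast this
  have hB1 : (1 : ℝ) ≤ B.card := by exact_mod_cast hBne.card_pos
  have hK1 : (1 : ℝ) ≤ (B.image col).card := by exact_mod_cast (hBne.image col).card_pos
  have hKT : ((B.image col).card : ℝ) ≤ T.card := by
    have : (B.image col).card ≤ T.card := by
      refine Finset.card_le_card ?_
      intro i hi
      obtain ⟨b, hb, rfl⟩ := Finset.mem_image.1 hi
      exact (hcolT b hb).1
    exact_mod_cast this
  have hp : (n : ℝ) ^ (-ε) ≤ (((n ^ D : ℕ) : ℝ) * B.card) ^ (-(ε / (D + 1))) := by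
    rw [Nat.cast_pow]
    exact pow_aux hε D hn1r hB1 hBn
  have hmin := min_aux k hnB hB1 hK1 hKT hn1r
  exact fin_aux (pow_pos (by norm_num) k) hc1.le hp
    (le_min (pow_nonneg (by linarith) _) (pow_nonneg (div_nonneg (by linarith) (by linarith)) _))
    hmin (Real.rpow_nonneg (mul_nonneg (Nat.cast_nonneg _) (by linarith)) _)

end Pool.Agent.R926.KI
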