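import Pool.Agent.R926.KI.Close
import Pool.Agent.R926.KI.Comb

set_option autoImplicit false

/-!
# Good tuples
-/

namespace Pool.Agent.R926.KI

open Finset Pool.Agent.Y385.SPI

/-- `x` and `y` have a ratio of height at most `H` -/
def Close (H x y : ℕ) : Prop := x ≤ H * Nat.gcd x y ∧ y ≤ H * Nat.gcd x y

theorem Close.symm {H x y : ℕ} (h : Close H x y) : Close H y x := by
  unfold Close at *
  rw [Nat.gcd_comm]
  exact ⟨h.2, h.1⟩

/-- `y` and `y'` both have a large common divisor with one element of `A` -/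
def Bad (A : Finset ℕ) (k H y y' : ℕ) : Prop :=
  ∃ x ∈ A, H < x / Nat.gcd x y ∧ x ≤ Nat.gcd x y ^ k ∧
    x / Nat.gcd x y ≤ Nat.gcd (x / Nat.gcd x y) y' ^ k

open Classical in
/-- tuples without bad pairs -/
noncomputable def GT (A : Finset ℕ) (k H l : ℕ) : Finset (Fin l → ℕ) :=
  (Fintype.piFinset fun _ : Fin l => A).filter fun t => ∀ i j, i ≠ j → ¬ Bad A k H (t i) (t j)

/-- the product of a tuple -/
def pr {l : ℕ} (t : Fin l → ℕ) : ℕ := ∏ i, t i

theorem mem_GT {A : Finset ℕ} {k H l : ℕ} {t : Fin l → ℕ} :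
    t ∈ GT A k H l ↔ (∀ i, t i ∈ A) ∧ ∀ i j, i ≠ j → ¬ Bad A k H (t i) (t j) := by
  classical
  unfold GT
  rw [Finset.mem_filter, Fintype.mem_piFinset]

theorem close_of_max {A : Finset ℕ} (hA : ∀ x ∈ A, x ≠ 0) {k H l : ℕ} (hl : l ≤ k) (hH : 1 ≤ H)
    {y : Fin l → ℕ} (hy : y ∈ GT A k H l) (x : ℕ) (hx : x ∈ A) (hmax : ∀ j, y j ≤ x)
    (hdvd : x ∣ ∏ j, y j) (j₀ : Fin l) : ∃ j, Close H x (y j) := by
  classical
  rw [mem_GT] at hy
  have hy0 : ∀ j, y j ≠ 0 := fun j => hA _ (hy.1 j)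
  have hx0 := hA x hx
  by_cases hxH : x ≤ H
  · refine ⟨j₀, ?_⟩
    have hg : 1 ≤ Nat.gcd x (y j₀) := Nat.gcd_pos_of_pos_left _ (Nat.pos_of_ne_zero hx0)
    have : H ≤ H * Nat.gcd x (y j₀) := Nat.le_mul_of_pos_right _ hg
    exact ⟨by omega, (hmax j₀).trans (by omega)⟩
  obtain ⟨j, _, hj⟩ := exists_large_gcd Finset.univ y x (by omega) (fun j _ => hy0 j) k
    (by simpa using hl) hdvd
  refine ⟨j, ?_⟩
  set g := Nat.gcd x (y j) with hg
  have hg0 : 0 < g := Nat.gcd_pos_of_pos_left _ (Nat.pos_of_ne_zero hx0)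
  obtain ⟨b, hb⟩ := Nat.gcd_dvd_left x (y j)
  obtain ⟨c, hc⟩ := Nat.gcd_dvd_right x (y j)
  rw [← hg] at hb hc
  have hbdiv : x / g = b := by rw [hb]; exact Nat.mul_div_cancel_left b hg0
  by_cases hbH : b ≤ H
  · have h1 : x ≤ H * g := by
      rw [hb, mul_comm]
      exact Nat.mul_le_mul_right _ hbH
    exact ⟨h1, (hmax j).trans h1⟩
  exfalso
  have hcop : Nat.Coprime b c := by
    have := Nat.coprime_div_gcd_div_gcd (m := x) (n := y j) hg0
    rw [← hg] at this
    have e2 : y j / g = c := by rw [hc]; exact Nat.mul_div_cancel_left c hg0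
    rwa [hbdiv, e2] at this
  have hbd : b ∣ ∏ j' ∈ Finset.univ.erase j, y j' := by
    rw [← Finset.mul_prod_erase Finset.univ y (Finset.mem_univ j)] at hdvd
    have h1 : g * b ∣ g * (c * ∏ j' ∈ Finset.univ.erase j, y j') := by
      rw [← mul_assoc, ← hc, ← hb]; exact hdvd
    have h2 : b ∣ c * ∏ j' ∈ Finset.univ.erase j, y j' :=
      (Nat.mul_dvd_mul_iff_left hg0).1 h1
    exact hcop.dvd_of_dvd_mul_left h2
  obtain ⟨j', hj', hbj'⟩ := exists_large_gcd (Finset.univ.erase j) y b (by omega)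
    (fun j _ => hy0 j) k (by
      rw [Finset.card_erase_of_mem (Finset.mem_univ j), Finset.card_univ, Fintype.card_fin]
      omega) hbd
  refine hy.2 j j' (Finset.ne_of_mem_erase hj').symm ⟨x, hx, ?_, hj, ?_⟩
  · rw [← hg, hbdiv]; omega
  · rw [← hg, hbdiv]; exact hbj'

theorem exists_close {A : Finset ℕ} (hA : ∀ x ∈ A, x ≠ 0) {k H l : ℕ} (hl : l + 1 ≤ k)
    (hH : 1 ≤ H) {x y : Fin (l + 1) → ℕ} (hx : x ∈ GT A k H (l + 1)) (hy : y ∈ GT A k H (l + 1))
    (hxy : pr x = pr y) : ∃ i j, Close H (x i) (y j) := by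
  have hx' := mem_GT.1 hx
  have hy' := mem_GT.1 hy
  obtain ⟨i, _, hi⟩ := Finset.exists_max_image Finset.univ x ⟨0, Finset.mem_univ _⟩
  obtain ⟨j, _, hj⟩ := Finset.exists_max_image Finset.univ y ⟨0, Finset.mem_univ _⟩
  unfold pr at hxy
  rcases le_total (y j) (x i) with h | h
  · obtain ⟨j', hj'⟩ := close_of_max hA hl hH hy (x i) (hx'.1 i)
      (fun j' => (hj j' (Finset.mem_univ _)).trans h)
      (hxy ▸ Finset.dvd_prod_of_mem x (Finset.mem_univ i)) 0
    exact ⟨i, j', hj'⟩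
  · obtain ⟨i', hi'⟩ := close_of_max hA hl hH hx (y j) (hy'.1 j)
      (fun i' => (hi i' (Finset.mem_univ _)).trans h)
      (hxy ▸ Finset.dvd_prod_of_mem y (Finset.mem_univ j)) 0
    exact ⟨i', j, hi'.symm⟩

theorem GT_succAbove {A : Finset ℕ} {k H l : ℕ} {x : Fin (l + 1) → ℕ}
    (hx : x ∈ GT A k H (l + 1)) (i : Fin (l + 1)) : (fun a => x (i.succAbove a)) ∈ GT A k H l := by
  rw [mem_GT] at *
  exact ⟨fun a => hx.1 _, fun a b hab => hx.2 _ _ fun h => hab (Fin.succAbove_right_injective h)⟩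

open Classical in
theorem pair_count {A : Finset ℕ} (hA : ∀ x ∈ A, x ≠ 0) {k H l : ℕ} (i j : Fin (l + 1)) :
    (((GT A k H (l + 1)) ×ˢ (GT A k H (l + 1))).filter fun q =>
      pr q.1 = pr q.2 ∧ Close H (q.1 i) (q.2 j)).card ≤
      ∑ p ∈ PH H, rep A p * cnt (GT A k H l) pr p := by
  set T := fun p : ℕ × ℕ => ((A ×ˢ A).filter fun q => p.2 * q.1 = p.1 * q.2) ×ˢ
    (((GT A k H l) ×ˢ (GT A k H l)).filter fun q => p.2 * pr q.1 = p.1 * pr q.2) with hT
  have hcard : ∀ p, (T p).card = rep A p * cnt (GT A k H l) pr p := by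
    intro p
    rw [hT, Finset.card_product]
    rfl
  have hle : (((GT A k H (l + 1)) ×ˢ (GT A k H (l + 1))).filter fun q =>
      pr q.1 = pr q.2 ∧ Close H (q.1 i) (q.2 j)).card ≤ ((PH H).biUnion T).card := by
    refine Finset.card_le_card_of_injOn (fun q => ((q.1 i, q.2 j),
      ((fun a => q.2 (j.succAbove a)), (fun a => q.1 (i.succAbove a))))) ?_ ?_
    · intro q hq
      rw [Finset.mem_coe, Finset.mem_filter, Finset.mem_product] at hq
      obtain ⟨⟨hq1, hq2⟩, hpr, hc1, hc2⟩ := hq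
      have hx := mem_GT.1 hq1
      have hy := mem_GT.1 hq2
      have hx0 := hA _ (hx.1 i)
      have hy0 := hA _ (hy.1 j)
      set g := Nat.gcd (q.1 i) (q.2 j) with hg
      have hg0 : 0 < g := Nat.gcd_pos_of_pos_left _ (Nat.pos_of_ne_zero hx0)
      obtain ⟨b, hb⟩ := Nat.gcd_dvd_left (q.1 i) (q.2 j)
      obtain ⟨c, hc⟩ := Nat.gcd_dvd_right (q.1 i) (q.2 j)
      rw [← hg] at hb hc
      have hcop : Nat.Coprime b c := by
        have := Nat.coprime_div_gcd_div_gcd (m := q.1 i) (n := q.2 j) hg0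
        rw [← hg] at this
        have e1 : q.1 i / g = b := by rw [hb]; exact Nat.mul_div_cancel_left b hg0
        have e2 : q.2 j / g = c := by rw [hc]; exact Nat.mul_div_cancel_left c hg0
        rwa [e1, e2] at this
      have hb0 : 1 ≤ b := by
        rcases Nat.eq_zero_or_pos b with h | h
        · rw [h, mul_zero] at hb; exact absurd hb hx0
        · exact h
      have hc0 : 1 ≤ c := by
        rcases Nat.eq_zero_or_pos c with h | h
        · rw [h, mul_zero] at hc; exact absurd hc hy0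
        · exact h
      have hbH : b ≤ H := by
        rw [hb, mul_comm] at hc1
        exact Nat.le_of_mul_le_mul_right hc1 hg0
      have hcH : c ≤ H := by
        rw [hc, mul_comm] at hc2
        exact Nat.le_of_mul_le_mul_right hc2 hg0
      rw [Finset.mem_coe, Finset.mem_biUnion]
      refine ⟨(b, c), ?_, ?_⟩
      · unfold PH
        rw [Finset.mem_filter, Finset.mem_product, Finset.mem_Icc, Finset.mem_Icc]
        exact ⟨⟨⟨hb0, hbH⟩, ⟨hc0, hcH⟩⟩, hcop⟩
      · rw [hT]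
        simp only [Finset.mem_product, Finset.mem_filter]
        refine ⟨⟨⟨hx.1 i, hy.1 j⟩, ?_⟩, ⟨GT_succAbove hq2 j, GT_succAbove hq1 i⟩, ?_⟩
        · rw [hb, hc]; ring
        · unfold pr at hpr ⊢
          rw [Fin.prod_univ_succAbove _ i, Fin.prod_univ_succAbove _ j, hb, hc, mul_assoc,
            mul_assoc] at hpr
          exact (Nat.eq_of_mul_eq_mul_left hg0 hpr).symm
    · intro q _ q' _ h
      have h1 := Prod.ext_iff.1 h
      have h2 := Prod.ext_iff.1 h1.1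
      have h3 := Prod.ext_iff.1 h1.2
      have e1 : q.1 = q'.1 := by
        funext a
        rcases Fin.eq_self_or_eq_succAbove i a with rfl | ⟨c, rfl⟩
        · exact h2.1
        · exact congrFun h3.2 c
      have e2 : q.2 = q'.2 := by
        funext a
        rcases Fin.eq_self_or_eq_succAbove j a with rfl | ⟨c, rfl⟩
        · exact h2.2
        · exact congrFun h3.1 c
      exact Prod.ext e1 e2
  refine hle.trans (Finset.card_biUnion_le.trans (le_of_eq ?_))
  exact Finset.sum_congr rfl fun p _ => hcard p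

theorem step {A : Finset ℕ} (hA : ∀ x ∈ A, x ≠ 0) {k H l : ℕ} (hl : l + 1 ≤ k) (hH : 1 ≤ H) :
    cnt (GT A k H (l + 1)) pr (1, 1) ≤
      (l + 1) ^ 2 * ∑ p ∈ PH H, rep A p * cnt (GT A k H l) pr p := by
  classical
  have hsub : ((GT A k H (l + 1)) ×ˢ (GT A k H (l + 1))).filter
      (fun q => (1, 1).2 * pr q.1 = (1, 1).1 * pr q.2) ⊆
      (Finset.univ : Finset (Fin (l + 1) × Fin (l + 1))).biUnion fun ij =>
        ((GT A k H (l + 1)) ×ˢ (GT A k H (l + 1))).filter fun q =>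
          pr q.1 = pr q.2 ∧ Close H (q.1 ij.1) (q.2 ij.2) := by
    intro q hq
    rw [Finset.mem_filter] at hq
    simp only [one_mul] at hq
    obtain ⟨i, j, hij⟩ := exists_close hA hl hH (Finset.mem_product.1 hq.1).1
      (Finset.mem_product.1 hq.1).2 hq.2
    rw [Finset.mem_biUnion]
    exact ⟨(i, j), Finset.mem_univ _, Finset.mem_filter.2 ⟨hq.1, hq.2, hij⟩⟩
  unfold cnt
  refine (Finset.card_le_card hsub).trans (Finset.card_biUnion_le.trans ?_)
  refine (Finset.sum_le_card_nsmul _ _ _ fun ij _ => pair_count hA ij.1 ij.2).trans (le_of_eq ?_)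
  rw [Finset.card_univ, Fintype.card_prod, Fintype.card_fin, smul_eq_mul, sq]
  rfl

theorem energy_bound (k : ℕ) (ε : ℝ) (hε : 0 < ε) : ∃ K : ℝ, 1 ≤ K ∧ ∀ H : ℕ, 1 ≤ H →
    ∀ A : Finset ℕ, (∀ x ∈ A, x ≠ 0) → A.Nonempty → ∀ l ≤ k,
    (cnt (GT A k H l) pr (1, 1) : ℝ) ≤ (K * ((H : ℝ) * A.card) ^ ε * A.card) ^ l := by
  classical
  obtain ⟨K, hK, hcl⟩ := close_bound k ε hε
  refine ⟨(k + 1) ^ 2 * K, ?_, ?_⟩
  · refine one_le_mul_of_one_le_of_one_le (one_le_pow₀ ?_) hK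
    have : (0 : ℝ) ≤ k := Nat.cast_nonneg k
    linarith
  intro H hH A hA hAne l
  have hA1 : (1 : ℝ) ≤ A.card := by exact_mod_cast hAne.card_pos
  induction l with
  | zero =>
    intro _
    rw [pow_zero]
    have h1 : cnt (GT A k H 0) pr (1, 1) ≤ 1 := by
      unfold cnt
      refine Finset.card_le_one.2 fun q _ q' _ => ?_
      exact Prod.ext (Subsingleton.elim _ _) (Subsingleton.elim _ _)
    exact_mod_cast h1
  | succ l ih =>
    intro hl
    have ih' := ih (by omega)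
    have h1 : (cnt (GT A k H (l + 1)) pr (1, 1) : ℝ) ≤
        ((l : ℝ) + 1) ^ 2 * ∑ p ∈ PH H, (rep A p : ℝ) * (cnt (GT A k H l) pr p : ℝ) := by
      exact_mod_cast step hA hl hH
    have hG : ((GT A k H l).card : ℝ) ≤ (A.card : ℝ) ^ k := by
      have h2 : (GT A k H l).card ≤ A.card ^ l := by
        unfold GT
        refine (Finset.card_filter_le _ _).trans (le_of_eq ?_)
        rw [Fintype.card_piFinset_const]
      calc ((GT A k H l).card : ℝ) ≤ (A.card : ℝ) ^ l := by exact_mod_cast h2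
        _ ≤ (A.card : ℝ) ^ k := pow_le_pow_right₀ hA1 (by omega)
    have h3 := hcl H hH A hA hAne (Fin l → ℕ) (GT A k H l) pr (fun u hu => by
      unfold pr
      exact Finset.prod_ne_zero_iff.2 fun i _ => hA _ ((mem_GT.1 hu).1 i)) hG
    have hlk : ((l : ℝ) + 1) ^ 2 ≤ ((k : ℝ) + 1) ^ 2 := by
      have : (l : ℝ) ≤ k := by exact_mod_cast (by omega : l ≤ k)
      gcongr
    calc (cnt (GT A k H (l + 1)) pr (1, 1) : ℝ)
        ≤ ((l : ℝ) + 1) ^ 2 * ∑ p ∈ PH H, (rep A p : ℝ) * (cnt (GT A k H l) pr p : ℝ) := h1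
      _ ≤ ((k : ℝ) + 1) ^ 2 * (K * ((H : ℝ) * A.card) ^ ε * A.card *
            cnt (GT A k H l) pr (1, 1)) := by
          refine mul_le_mul hlk h3 (Finset.sum_nonneg fun p _ => by positivity) (by positivity)
      _ ≤ ((k : ℝ) + 1) ^ 2 * (K * ((H : ℝ) * A.card) ^ ε * A.card *
            (((k : ℝ) + 1) ^ 2 * K * ((H : ℝ) * A.card) ^ ε * A.card) ^ l) := by
          refine mul_le_mul_of_nonneg_left ?_ (by positivity)
          refine mul_le_mul_of_nonneg_left ih' ?_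
          positivity
      _ = _ := by rw [pow_succ]; ring

end Pool.Agent.R926.KI
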