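import Pool.Agent.R926.KI.Arb

set_option autoImplicit false

/-!
# Close pairs and products with an arbitrary set
-/

namespace Pool.Agent.R926.KI

open Finset Pool.Agent.R849.RF

/-- the neighbours of `x` -/
def nb (S : Finset ℤ) (W : ℕ) (x : ℤ) : Finset ℤ := S.filter fun y => |x - y| ≤ (W : ℤ)

/-- the number of close pairs -/
def cp (S : Finset ℤ) (W : ℕ) : ℕ := ((S ×ˢ S).filter fun q => |q.1 - q.2| ≤ (W : ℤ)).card

theorem cp_eq (S : Finset ℤ) (W : ℕ) : cp S W = ∑ x ∈ S, (nb S W x).card := by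
  classical
  unfold cp
  rw [Finset.card_eq_sum_card_fiberwise (s := (S ×ˢ S).filter fun q => |q.1 - q.2| ≤ (W : ℤ))
    (t := S) (f := Prod.fst) fun q hq => (Finset.mem_product.1 (Finset.mem_filter.1 hq).1).1]
  refine Finset.sum_congr rfl fun x hx => ?_
  refine Finset.card_bij (fun q _ => q.2) ?_ ?_ ?_
  · intro q hq
    rw [Finset.mem_filter, Finset.mem_filter, Finset.mem_product] at hq
    obtain ⟨⟨⟨_, h2⟩, h3⟩, rfl⟩ := hq
    exact Finset.mem_filter.2 ⟨h2, h3⟩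
  · intro q hq q' hq' h
    exact Prod.ext ((Finset.mem_filter.1 hq).2.trans (Finset.mem_filter.1 hq').2.symm) h
  · intro y hy
    have := Finset.mem_filter.1 hy
    exact ⟨(x, y), Finset.mem_filter.2 ⟨Finset.mem_filter.2
      ⟨Finset.mem_product.2 ⟨hx, this.1⟩, this.2⟩, rfl⟩, rfl⟩

/-- the elements with about `2 ^ j` neighbours -/
def rich (S : Finset ℤ) (W j : ℕ) : Finset ℤ := S.filter fun x => Nat.log 2 (nb S W x).card = j

theorem exists_rich (S : Finset ℤ) (W : ℕ) : ∃ j : ℕ,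
    cp S W ≤ (Nat.log 2 S.card + 1) * ((rich S W j).card * 2 ^ (j + 1)) := by
  classical
  set J := Nat.log 2 S.card with hJ
  have hmaps : ∀ x ∈ S, Nat.log 2 (nb S W x).card ∈ Finset.range (J + 1) := by
    intro x _
    rw [Finset.mem_range]
    have : Nat.log 2 (nb S W x).card ≤ J := Nat.log_mono_right (Finset.card_filter_le _ _)
    omega
  have h1 : cp S W = ∑ j ∈ Finset.range (J + 1), ∑ x ∈ rich S W j, (nb S W x).card := by
    rw [cp_eq, ← Finset.sum_fiberwise_of_maps_to hmaps]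
    rfl
  have h2 : ∀ j, ∑ x ∈ rich S W j, (nb S W x).card ≤ (rich S W j).card * 2 ^ (j + 1) := by
    intro j
    refine (Finset.sum_le_card_nsmul _ _ (2 ^ (j + 1)) fun x hx => ?_).trans
      (le_of_eq (by rw [smul_eq_mul]))
    have := (Finset.mem_filter.1 hx).2
    rw [← this]
    exact (Nat.lt_pow_succ_log_self (by norm_num) _).le
  obtain ⟨j, _, hj⟩ := Finset.exists_max_image (Finset.range (J + 1))
    (fun j => (rich S W j).card * 2 ^ (j + 1)) ⟨0, Finset.mem_range.2 (by omega)⟩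
  refine ⟨j, ?_⟩
  rw [h1]
  calc ∑ j ∈ Finset.range (J + 1), ∑ x ∈ rich S W j, (nb S W x).card
      ≤ ∑ j ∈ Finset.range (J + 1), (rich S W j).card * 2 ^ (j + 1) :=
        Finset.sum_le_sum fun j _ => h2 j
    _ ≤ ∑ _j ∈ Finset.range (J + 1), (rich S W j).card * 2 ^ (j + 1) :=
        Finset.sum_le_sum fun i hi => hj i hi
    _ = _ := by simp

theorem exists_sep (R : Finset ℤ) (W : ℕ) : ∃ T ⊆ R,
    (∀ s ∈ T, ∀ t ∈ T, s ≠ t → 2 * (W : ℤ) < |s - t|) ∧
    ∀ x ∈ R, ∃ t ∈ T, |x - t| ≤ 2 * (W : ℤ) := by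
  classical
  obtain ⟨T, hT, hmax⟩ := Finset.exists_max_image
    (R.powerset.filter fun T => ∀ s ∈ T, ∀ t ∈ T, s ≠ t → 2 * (W : ℤ) < |s - t|)
    (fun T => T.card) ⟨∅, by simp⟩
  rw [Finset.mem_filter, Finset.mem_powerset] at hT
  refine ⟨T, hT.1, hT.2, ?_⟩
  intro x hx
  by_contra hcon
  push Not at hcon
  have hxT : x ∉ T := by
    intro h
    have := hcon x h
    rw [sub_self, abs_zero] at this
    have h0 : (0 : ℤ) ≤ W := Int.natCast_nonneg _
    omega
  have h1 := hmax (insert x T) (by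
    rw [Finset.mem_filter, Finset.mem_powerset]
    refine ⟨Finset.insert_subset hx hT.1, ?_⟩
    intro s hs t ht hst
    rw [Finset.mem_insert] at hs ht
    rcases hs with rfl | hs <;> rcases ht with rfl | ht
    · exact absurd rfl hst
    · exact hcon t ht
    · rw [abs_sub_comm]; exact hcon s hs
    · exact hT.2 s hs t ht hst)
  rw [Finset.card_insert_of_notMem hxT] at h1
  omega

theorem sep_card {S T : Finset ℤ} {W j : ℕ} (hT : T ⊆ rich S W j)
    (hsep : ∀ s ∈ T, ∀ t ∈ T, s ≠ t → 2 * (W : ℤ) < |s - t|) : T.card * 2 ^ j ≤ S.card := by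
  classical
  have h1 : (T.biUnion fun t => nb S W t).card = ∑ t ∈ T, (nb S W t).card := by
    refine Finset.card_biUnion fun s hs t ht hst => ?_
    rw [Function.onFun, Finset.disjoint_left]
    intro y hy1 hy2
    have e1 := (Finset.mem_filter.1 hy1).2
    have e2 := (Finset.mem_filter.1 hy2).2
    have e3 := hsep s hs t ht hst
    have e4 : |s - t| ≤ |s - y| + |t - y| := by
      have := abs_sub_le s y t
      rw [abs_sub_comm y t] at this
      exact this
    omega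
  have h2 : (T.biUnion fun t => nb S W t).card ≤ S.card := by
    refine Finset.card_le_card (Finset.biUnion_subset.2 fun t _ => Finset.filter_subset _ _)
  rw [h1] at h2
  refine le_trans ?_ h2
  rw [← smul_eq_mul]
  refine Finset.card_nsmul_le_sum _ _ _ fun t ht => ?_
  have ht' := Finset.mem_filter.1 (hT ht)
  rw [← ht'.2]
  refine Nat.pow_log_le_self 2 ?_
  have : t ∈ nb S W t := Finset.mem_filter.2 ⟨ht'.1, by simp⟩
  exact (Finset.card_pos.2 ⟨t, this⟩).ne'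

theorem rich_sq {S : Finset ℤ} {W j : ℕ} {x : ℤ} (hx : x ∈ rich S W j) :
    (2 ^ j) ^ 2 ≤ 4 * cp S W := by
  classical
  have hx' := Finset.mem_filter.1 hx
  have hxx : x ∈ nb S W x := Finset.mem_filter.2 ⟨hx'.1, by simp⟩
  have h1 : 2 ^ j ≤ (nb S W x).card := by
    rw [← hx'.2]
    exact Nat.pow_log_le_self 2 (Finset.card_pos.2 ⟨x, hxx⟩).ne'
  set Q1 := (nb S W x).filter fun y => y ≤ x with hQ1
  set Q2 := (nb S W x).filter fun y => ¬ y ≤ x with hQ2
  have h2 : Q1.card + Q2.card = (nb S W x).card := Finset.card_filter_add_card_filter_not _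
  have hsub : ∀ Q : Finset ℤ, Q ⊆ S → (∀ y ∈ Q, ∀ z ∈ Q, |y - z| ≤ (W : ℤ)) →
      Q.card ^ 2 ≤ cp S W := by
    intro Q hQ hd
    rw [sq, ← Finset.card_product]
    refine Finset.card_le_card fun q hq => ?_
    rw [Finset.mem_product] at hq
    exact Finset.mem_filter.2 ⟨Finset.mem_product.2 ⟨hQ hq.1, hQ hq.2⟩, hd _ hq.1 _ hq.2⟩
  have h3 : Q1.card ^ 2 ≤ cp S W := by
    refine hsub Q1 ((Finset.filter_subset _ _).trans (Finset.filter_subset _ _)) ?_
    intro y hy z hz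
    have a1 := Finset.mem_filter.1 hy
    have a2 := Finset.mem_filter.1 hz
    have a3 := abs_le.1 (Finset.mem_filter.1 a1.1).2
    have a4 := abs_le.1 (Finset.mem_filter.1 a2.1).2
    rw [abs_le]
    constructor <;> omega
  have h4 : Q2.card ^ 2 ≤ cp S W := by
    refine hsub Q2 ((Finset.filter_subset _ _).trans (Finset.filter_subset _ _)) ?_
    intro y hy z hz
    have a1 := Finset.mem_filter.1 hy
    have a2 := Finset.mem_filter.1 hz
    have a3 := abs_le.1 (Finset.mem_filter.1 a1.1).2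
    have a4 := abs_le.1 (Finset.mem_filter.1 a2.1).2
    rw [abs_le]
    constructor <;> omega
  rcases le_total Q1.card Q2.card with h | h
  · have h5 : 2 ^ j ≤ 2 * Q2.card := by omega
    calc (2 ^ j) ^ 2 ≤ (2 * Q2.card) ^ 2 := Nat.pow_le_pow_left h5 2
      _ = 4 * Q2.card ^ 2 := by ring
      _ ≤ _ := Nat.mul_le_mul_left _ h4
  · have h5 : 2 ^ j ≤ 2 * Q1.card := by omega
    calc (2 ^ j) ^ 2 ≤ (2 * Q1.card) ^ 2 := Nat.pow_le_pow_left h5 2
      _ = 4 * Q1.card ^ 2 := by ring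
      _ ≤ _ := Nat.mul_le_mul_left _ h3

/-- the real inequality -/
theorem mu_aux {N P r t M J : ℝ} (hN : 1 ≤ N) (hP : 1 ≤ P) (hr : 1 ≤ r) (ht : 1 ≤ t) (hM : 1 ≤ M)
    (hJ : 1 ≤ J) (h1 : P ≤ J * (r * (2 * M))) (h2 : t * M ≤ N) (h3 : M ^ 2 ≤ 4 * P) :
    min (Real.sqrt P) ((P / N) ^ 2) ≤ 4 * J ^ 2 * min r ((r / t) ^ 2) := by
  have hP0 : 0 < P := by linarith
  have hs0 : 0 < Real.sqrt P := Real.sqrt_pos.2 hP0
  have hss : Real.sqrt P * Real.sqrt P = P := Real.mul_self_sqrt hP0.le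
  have hMs : M ≤ 2 * Real.sqrt P := by
    refine abs_le_of_sq_le_sq' ?_ (by positivity) |>.2
    calc M ^ 2 ≤ 4 * P := h3
      _ = (2 * Real.sqrt P) ^ 2 := by rw [mul_pow, Real.sq_sqrt hP0.le]; norm_num
  rw [mul_min_of_nonneg _ _ (by positivity)]
  refine min_le_min ?_ ?_
  · have e1 : Real.sqrt P * Real.sqrt P ≤ (4 * J * r) * Real.sqrt P := by
      calc Real.sqrt P * Real.sqrt P = P := hss
        _ ≤ J * (r * (2 * M)) := h1
        _ ≤ J * (r * (2 * (2 * Real.sqrt P))) := by gcongr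
        _ = _ := by ring
    have e2 := le_of_mul_le_mul_right e1 hs0
    have e3 : 4 * J * r ≤ 4 * J ^ 2 * r := by
      have : J ≤ J ^ 2 := by nlinarith
      have hr0 : 0 ≤ r := by linarith
      nlinarith
    linarith
  · have e1 : P / N ≤ 2 * J * (r / t) := by
      rw [div_le_iff₀ (by linarith)]
      have e2 : r / t * (t * M) ≤ r / t * N := mul_le_mul_of_nonneg_left h2 (by positivity)
      have e3 : r / t * (t * M) = r * M := by field_simp
      rw [e3] at e2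
      calc P ≤ J * (r * (2 * M)) := h1
        _ = 2 * J * (r * M) := by ring
        _ ≤ 2 * J * (r / t * N) := by gcongr
        _ = _ := by ring
    calc (P / N) ^ 2 ≤ (2 * J * (r / t)) ^ 2 := pow_le_pow_left₀ (by positivity) e1 2
      _ = _ := by ring

theorem log_aux (η : ℝ) (hη : 0 < η) : ∃ C : ℝ, 1 ≤ C ∧ ∀ N : ℕ, 1 ≤ N →
    ((Nat.log 2 N : ℝ) + 1) ≤ C * (N : ℝ) ^ η := by
  have hl2 : 0 < Real.log 2 := Real.log_pos (by norm_num)
  refine ⟨1 + 1 / (η * Real.log 2), ?_, ?_⟩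
  · have : 0 < 1 / (η * Real.log 2) := by positivity
    linarith
  intro N hN
  have hN1 : (1 : ℝ) ≤ N := by exact_mod_cast hN
  have h1 : (Nat.log 2 N : ℝ) ≤ Real.logb 2 N := Real.natLog_le_logb N 2
  have h2 : Real.log N ≤ (N : ℝ) ^ η / η := Real.log_le_rpow_div (by linarith) hη
  have h3 : Real.logb 2 N ≤ 1 / (η * Real.log 2) * (N : ℝ) ^ η := by
    unfold Real.logb
    rw [div_le_iff₀ hl2]
    refine h2.trans (le_of_eq ?_)
    field_simp
  have h4 : 1 ≤ (N : ℝ) ^ η := Real.one_le_rpow hN1 hη.le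
  calc (Nat.log 2 N : ℝ) + 1 ≤ 1 / (η * Real.log 2) * (N : ℝ) ^ η + (N : ℝ) ^ η := by linarith
    _ = _ := by ring

theorem AB_mono (A : Finset ℂ) {B B' : Finset ℤ} (h : B ⊆ B') :
    ((AB A B).card : ℝ) ≤ ((AB A B').card : ℝ) := by
  classical
  have : (AB A B).card ≤ (AB A B').card :=
    Finset.card_le_card (Finset.image_subset_image (Finset.product_subset_product_right h))
  exact_mod_cast this

theorem close_pairs (ε : ℝ) (hε : 0 < ε) (D : ℕ) : ∃ c : ℝ, 0 < c ∧ ∀ S : Finset ℤ, S.Nonempty →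
    (0 : ℤ) ∉ S → ∀ A : Finset ℂ, A.Nonempty → (0 : ℂ) ∉ A →
    c * ((A.card : ℝ) * S.card) ^ (-ε) * (A.card *
      min (Real.sqrt (cp S (S.card ^ D))) (((cp S (S.card ^ D) : ℝ) / S.card) ^ 2)) ≤
      ((AB A S).card : ℝ) := by
  classical
  set ε1 : ℝ := ε / (2 * (D + 1)) with hε1
  have hε10 : 0 < ε1 := by positivity
  obtain ⟨c1, hc1, harb⟩ := arbL ε1 hε10
  obtain ⟨C, hC, hlog⟩ := log_aux (ε / 4) (by positivity)
  refine ⟨c1 / (4 * C ^ 2 * 4 ^ ε1), by positivity, ?_⟩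
  intro S hS h0S A hA h0A
  set N := S.card with hN
  set W := N ^ D with hW
  have hN1 : 1 ≤ N := hS.card_pos
  have hN1r : (1 : ℝ) ≤ N := by exact_mod_cast hN1
  have ha1 : (1 : ℝ) ≤ A.card := by exact_mod_cast hA.card_pos
  have hW1 : 1 ≤ W := Nat.one_le_pow _ _ hN1
  obtain ⟨j, hj⟩ := exists_rich S W
  set R := rich S W j with hR
  have hcp : 1 ≤ cp S W := by
    obtain ⟨x, hx⟩ := hS
    refine Finset.card_pos.2 ⟨(x, x), Finset.mem_filter.2 ⟨Finset.mem_product.2 ⟨hx, hx⟩, ?_⟩⟩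
    simp
  have hRne : R.Nonempty := by
    rw [← Finset.card_pos]
    by_contra h0
    have : R.card = 0 := by omega
    rw [this] at hj
    simp at hj
    omega
  have hRS : R ⊆ S := Finset.filter_subset _ _
  obtain ⟨T, hTR, hsep, hcov⟩ := exists_sep R W
  have hTne : 1 ≤ T.card := by
    obtain ⟨x, hx⟩ := hRne
    obtain ⟨t, ht, _⟩ := hcov x hx
    exact Finset.card_pos.2 ⟨t, ht⟩
  have h2 := sep_card hTR hsep
  obtain ⟨x₀, hx₀⟩ := hRne
  have h3 := rich_sq hx₀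
  have h4 := harb R ℤ T (fun t => t - 2 * (W : ℤ)) (fun _ => 1) (4 * W) (by omega) ⟨x₀, hx₀⟩
    (fun h => h0S (hRS h)) (fun _ _ => isCoprime_one_right) (by
      intro x hx
      obtain ⟨t, ht, hxt⟩ := hcov x hx
      rw [abs_le] at hxt
      refine ⟨t, ht, (x - t + 2 * W).toNat, ?_, ?_⟩
      · have : ((x - t + 2 * W).toNat : ℤ) ≤ ((4 * W : ℕ) : ℤ) := by
          rw [Int.toNat_of_nonneg (by linarith)]
          push_cast
          linarith
        exact_mod_cast this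
      · rw [Int.toNat_of_nonneg (by linarith)]
        ring) A hA h0A
  have h5 := AB_mono A hRS
  set P : ℝ := (cp S W : ℝ) with hP
  have hmu := mu_aux (N := (N : ℝ)) (P := P) (r := (R.card : ℝ)) (t := (T.card : ℝ))
    (M := (2 : ℝ) ^ j) (J := (Nat.log 2 N : ℝ) + 1) hN1r (by rw [hP]; exact_mod_cast hcp)
    (by exact_mod_cast (Finset.card_pos.2 ⟨x₀, hx₀⟩)) (by exact_mod_cast hTne)
    (one_le_pow₀ (by norm_num)) (by
      have : (0 : ℝ) ≤ (Nat.log 2 N : ℝ) := Nat.cast_nonneg _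
      linarith) (by
      have := (Nat.cast_le (α := ℝ)).2 hj
      push_cast at this
      rw [pow_succ, mul_comm ((2 : ℝ) ^ j) 2] at this
      exact this) (by exact_mod_cast h2) (by
      have := (Nat.cast_le (α := ℝ)).2 h3
      push_cast at this
      exact this)
  have hlogN := hlog N hN1
  set μ : ℝ := min (R.card : ℝ) (((R.card : ℝ) / T.card) ^ 2) with hμ
  have hμ0 : 0 ≤ μ := le_min (Nat.cast_nonneg _) (by positivity)
  set m : ℝ := min (Real.sqrt P) ((P / N) ^ 2) with hm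
  set a : ℝ := (A.card : ℝ) with ha
  set X : ℝ := a * N with hX
  have hX1 : 1 ≤ X := one_le_mul_of_one_le_of_one_le ha1 hN1r
  have hX0 : 0 < X := by linarith
  set r : ℝ := (R.card : ℝ) with hr
  have hrN : r ≤ N := by rw [hr]; exact_mod_cast Finset.card_le_card hRS
  have hr1 : 1 ≤ r := by rw [hr]; exact_mod_cast (Finset.card_pos.2 ⟨x₀, hx₀⟩)
  generalize ((AB A R).card : ℝ) = y at h4 h5
  generalize ((AB A S).card : ℝ) = z at h5 ⊢
  -- the factor of the progressions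
  have hZ : ((4 * W : ℕ) : ℝ) * r * a ≤ 4 * X ^ (D + 1) := by
    have e1 : ((4 * W : ℕ) : ℝ) = 4 * (N : ℝ) ^ D := by rw [hW]; push_cast; ring
    rw [e1]
    have e2 : (N : ℝ) ^ D * N * a ≤ X ^ (D + 1) := by
      rw [hX, mul_pow, ← pow_succ]
      have : a ≤ a ^ (D + 1) := le_self_pow₀ ha1 (by omega)
      have hNp : (0 : ℝ) ≤ (N : ℝ) ^ (D + 1) := by positivity
      nlinarith
    have e3 : 4 * (N : ℝ) ^ D * r * a ≤ 4 * ((N : ℝ) ^ D * N * a) := by
      have e4 : (N : ℝ) ^ D * r * a ≤ (N : ℝ) ^ D * N * a := by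
        have hNp : (0 : ℝ) ≤ (N : ℝ) ^ D := by positivity
        have ha0 : (0 : ℝ) ≤ a := by linarith
        exact mul_le_mul_of_nonneg_right (mul_le_mul_of_nonneg_left hrN hNp) ha0
      linarith
    linarith
  have hZ0 : 0 < ((4 * W : ℕ) : ℝ) * r * a := by
    have : (0 : ℝ) < ((4 * W : ℕ) : ℝ) := by exact_mod_cast (by omega : 0 < 4 * W)
    have ha0 : (0 : ℝ) < a := by linarith
    have hr0 : (0 : ℝ) < r := by linarith
    exact mul_pos (mul_pos this hr0) ha0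
  have e5 : (4 * X ^ (D + 1)) ^ (-ε1) ≤ (((4 * W : ℕ) : ℝ) * r * a) ^ (-ε1) :=
    Real.rpow_le_rpow_of_nonpos hZ0 hZ (by linarith)
  have e6 : (4 * X ^ (D + 1)) ^ (-ε1) = (4 ^ ε1)⁻¹ * X ^ (-(ε / 2)) := by
    rw [Real.mul_rpow (by norm_num) (by positivity), Real.rpow_neg (by norm_num),
      ← Real.rpow_natCast, ← Real.rpow_mul hX0.le]
    congr 2
    rw [hε1]
    push_cast
    field_simp
  rw [e6] at e5
  have ha0 : 0 < a := by linarith
  have e7 : c1 * ((4 ^ ε1)⁻¹ * X ^ (-(ε / 2))) * (a * μ) ≤ z := by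
    refine le_trans (mul_le_mul_of_nonneg_right (mul_le_mul_of_nonneg_left e5 hc1.le)
      (mul_nonneg ha0.le hμ0)) (h4.trans h5)
  have e8 : ((Nat.log 2 N : ℝ) + 1) ^ 2 ≤ C ^ 2 * X ^ (ε / 2) := by
    have b1 : ((Nat.log 2 N : ℝ) + 1) ^ 2 ≤ (C * (N : ℝ) ^ (ε / 4)) ^ 2 :=
      pow_le_pow_left₀ (by positivity) hlogN 2
    have b2 : ((N : ℝ) ^ (ε / 4)) ^ 2 = (N : ℝ) ^ (ε / 2) := by
      rw [← Real.rpow_natCast, ← Real.rpow_mul (by positivity)]
      congr 1
      push_cast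
      ring
    rw [mul_pow, b2] at b1
    refine b1.trans (mul_le_mul_of_nonneg_left ?_ (by positivity))
    refine Real.rpow_le_rpow (by positivity) ?_ (by positivity)
    rw [hX]
    nlinarith
  have hxp : 0 < X ^ (ε / 2) := Real.rpow_pos_of_pos hX0 _
  have e9 : m ≤ 4 * (C ^ 2 * X ^ (ε / 2)) * μ := by
    refine hmu.trans ?_
    refine mul_le_mul_of_nonneg_right ?_ hμ0
    linarith
  have e10 : X ^ (-ε) = X ^ (-(ε / 2)) * (X ^ (ε / 2))⁻¹ := by
    rw [← Real.rpow_neg hX0.le, ← Real.rpow_add hX0]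
    congr 1
    ring
  have hxm : 0 < X ^ (-(ε / 2)) := Real.rpow_pos_of_pos hX0 _
  have h4p : (0 : ℝ) < 4 ^ ε1 := by positivity
  calc c1 / (4 * C ^ 2 * 4 ^ ε1) * X ^ (-ε) * (a * m)
      ≤ c1 / (4 * C ^ 2 * 4 ^ ε1) * X ^ (-ε) * (a * (4 * (C ^ 2 * X ^ (ε / 2)) * μ)) := by
        refine mul_le_mul_of_nonneg_left (mul_le_mul_of_nonneg_left e9 ha0.le) ?_
        have : 0 < X ^ (-ε) := Real.rpow_pos_of_pos hX0 _
        positivity
    _ = c1 * ((4 ^ ε1)⁻¹ * X ^ (-(ε / 2))) * (a * μ) := by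
        rw [e10]
        field_simp
    _ ≤ z := e7

/-- the number of close pairs -/
theorem cp_bound (ε : ℝ) (hε : 0 < ε) (D : ℕ) : ∃ C : ℝ, 0 < C ∧ ∀ S : Finset ℤ, S.Nonempty →
    (0 : ℤ) ∉ S → ∀ A : Finset ℂ, A.Nonempty → (0 : ℂ) ∉ A →
    (cp S (S.card ^ D) : ℝ) ≤ C * ((A.card : ℝ) * S.card) ^ ε *
      (S.card * Real.sqrt (((AB A S).card : ℝ) / A.card) +
        (((AB A S).card : ℝ) / A.card) ^ 2) := by
  obtain ⟨c0, hc0, h⟩ := close_pairs (ε / 2) (by positivity) D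
  set c : ℝ := min c0 1 with hcdef
  have hc : 0 < c := by positivity
  have hc1 : c ≤ 1 := min_le_right _ _
  refine ⟨1 / c ^ 2, by positivity, ?_⟩
  intro S hS h0S A hA h0A
  have h1 := h S hS h0S A hA h0A
  have hN1 : (1 : ℝ) ≤ S.card := by exact_mod_cast hS.card_pos
  have ha1 : (1 : ℝ) ≤ A.card := by exact_mod_cast hA.card_pos
  have hz0 : (0 : ℝ) ≤ ((AB A S).card : ℝ) := Nat.cast_nonneg _
  have hP0 : (0 : ℝ) ≤ (cp S (S.card ^ D) : ℝ) := Nat.cast_nonneg _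
  generalize (cp S (S.card ^ D) : ℝ) = P at h1 hP0 ⊢
  generalize ((AB A S).card : ℝ) = z at h1 hz0 ⊢
  generalize (S.card : ℝ) = N at h1 hN1 ⊢
  generalize (A.card : ℝ) = a at h1 ha1 ⊢
  have ha0 : 0 < a := by linarith
  have hX1 : 1 ≤ a * N := one_le_mul_of_one_le_of_one_le ha1 hN1
  have hX0 : 0 < a * N := by linarith
  set Y : ℝ := (a * N) ^ (ε / 2) with hY
  have hY1 : 1 ≤ Y := Real.one_le_rpow hX1 (by positivity)
  have hY0 : 0 < Y := by linarith
  have hYY : (a * N) ^ ε = Y ^ 2 := by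
    rw [hY, ← Real.rpow_natCast, ← Real.rpow_mul hX0.le]
    congr 1
    push_cast
    ring
  rw [hYY]
  rw [Real.rpow_neg hX0.le, ← hY] at h1
  set Q : ℝ := z / a with hQ
  have hQ0 : 0 ≤ Q := div_nonneg hz0 ha0.le
  have h2 : c * min (Real.sqrt P) ((P / N) ^ 2) ≤ Q * Y := by
    have e1 : c0 * Y⁻¹ * (a * min (Real.sqrt P) ((P / N) ^ 2)) =
        (c0 * min (Real.sqrt P) ((P / N) ^ 2)) * (a * Y⁻¹) := by ring
    rw [e1, ← le_div_iff₀ (by positivity)] at h1
    have e2 : z / (a * Y⁻¹) = Q * Y := by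
      rw [hQ]
      field_simp
    rw [e2] at h1
    refine le_trans ?_ h1
    exact mul_le_mul_of_nonneg_right (min_le_left _ _) (le_min (Real.sqrt_nonneg _) (by positivity))
  have hgoal : ∀ u : ℝ, P ≤ u → u ≤ 1 / c ^ 2 * Y ^ 2 * (N * Real.sqrt Q + Q ^ 2) →
      P ≤ 1 / c ^ 2 * Y ^ 2 * (N * Real.sqrt Q + Q ^ 2) := fun u h1 h2 => h1.trans h2
  have hsQ : 0 ≤ Real.sqrt Q := Real.sqrt_nonneg _
  rcases le_total (Real.sqrt P) ((P / N) ^ 2) with hmin | hmin
  · rw [min_eq_left hmin] at h2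
    have e1 : Real.sqrt P ≤ Q * Y / c := by rw [le_div_iff₀ hc]; linarith
    have e2 : P ≤ (Q * Y / c) ^ 2 := by
      calc P = Real.sqrt P ^ 2 := (Real.sq_sqrt hP0).symm
        _ ≤ _ := pow_le_pow_left₀ (Real.sqrt_nonneg _) e1 2
    refine hgoal _ e2 ?_
    have e3 : (Q * Y / c) ^ 2 = 1 / c ^ 2 * Y ^ 2 * Q ^ 2 := by
      field_simp
    rw [e3]
    refine mul_le_mul_of_nonneg_left ?_ (by positivity)
    have : 0 ≤ N * Real.sqrt Q := by positivity
    linarith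
  · rw [min_eq_right hmin] at h2
    have e1 : (P / N) ^ 2 ≤ Q * (Y / c) ^ 2 := by
      have b1 : (P / N) ^ 2 ≤ Q * Y / c := by rw [le_div_iff₀ hc]; linarith
      refine b1.trans ?_
      rw [mul_div_assoc]
      refine mul_le_mul_of_nonneg_left ?_ hQ0
      have : 1 ≤ Y / c := by rw [le_div_iff₀ hc]; linarith
      nlinarith
    have e2 : P / N ≤ Real.sqrt Q * (Y / c) := by
      refine abs_le_of_sq_le_sq' ?_ (by positivity) |>.2
      rw [mul_pow, Real.sq_sqrt hQ0]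
      exact e1
    rw [div_le_iff₀ (by linarith)] at e2
    refine hgoal _ e2 ?_
    have e3 : Real.sqrt Q * (Y / c) * N ≤ 1 / c ^ 2 * Y ^ 2 * (N * Real.sqrt Q) := by
      have b1 : 1 ≤ Y / c := by rw [le_div_iff₀ hc]; linarith
      have b2 : Y / c ≤ (Y / c) ^ 2 := by nlinarith
      have b3 : 1 / c ^ 2 * Y ^ 2 = (Y / c) ^ 2 := by
        rw [div_pow]; ring
      rw [b3]
      have b4 : 0 ≤ N * Real.sqrt Q := by positivity
      nlinarith
    refine e3.trans (mul_le_mul_of_nonneg_left ?_ (by positivity))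
    have : 0 ≤ Q ^ 2 := by positivity
    linarith

end Pool.Agent.R926.KI
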